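import Pool.Agent.Helper2.MM.PD

/-! Data for the identity (K): jets of the potential `V` and of the function `h`. -/

namespace Pool.Agent.Helper2.MM

open MeasureTheory Matrix

/-- entrywise continuity of a matrix valued function -/
def CMat {E ι κ : Type*} [TopologicalSpace E] (M : E → Matrix ι κ ℝ) : Prop :=
  ∀ a b, Continuous (fun x => M x a b)

section
variable {E ι κ ρ : Type*} [TopologicalSpace E]

theorem CMat.add {M N : E → Matrix ι κ ℝ} (hM : CMat M) (hN : CMat N) :
    CMat (fun x => M x + N x) := fun a b => (hM a b).add (hN a b)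

theorem CMat.sub {M N : E → Matrix ι κ ℝ} (hM : CMat M) (hN : CMat N) :
    CMat (fun x => M x - N x) := fun a b => (hM a b).sub (hN a b)

theorem CMat.neg {M : E → Matrix ι κ ℝ} (hM : CMat M) : CMat (fun x => - M x) :=
  fun a b => (hM a b).neg

theorem CMat.mul [Fintype κ] {M : E → Matrix ι κ ℝ} {N : E → Matrix κ ρ ℝ} (hM : CMat M)
    (hN : CMat N) : CMat (fun x => M x * N x) := by
  intro a b
  simp only [Matrix.mul_apply]
  exact continuous_finsetSum _ (fun k _ => (hM a k).mul (hN k b))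

theorem CMat.trace [Fintype ι] {M : E → Matrix ι ι ℝ} (hM : CMat M) :
    Continuous (fun x => (M x).trace) := by
  simp only [Matrix.trace, Matrix.diag_apply]
  exact continuous_finsetSum _ (fun k _ => hM k k)

end

/-- entrywise compact support of a matrix valued function -/
def SMat {E ι κ : Type*} [TopologicalSpace E] (M : E → Matrix ι κ ℝ) : Prop :=
  ∀ a b, HasCompactSupport (fun x => M x a b)

section
variable {E ι κ ρ : Type*} [TopologicalSpace E]

theorem HasCompactSupport.fsum {κ : Type*} (s : Finset κ) {F : κ → E → ℝ}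
    (h : ∀ k ∈ s, HasCompactSupport (F k)) : HasCompactSupport (fun x => ∑ k ∈ s, F k x) := by
  classical
  induction s using Finset.induction_on with
  | empty =>
    have h0 : (fun x : E => ∑ k ∈ (∅ : Finset κ), F k x) = 0 := by funext x; simp
    rw [h0]; exact HasCompactSupport.zero
  | insert a s ha ih =>
    simp only [Finset.sum_insert ha]
    exact (h a (Finset.mem_insert_self a s)).add
      (ih (fun k hk => h k (Finset.mem_insert_of_mem hk)))

theorem SMat.mul_left [Fintype κ] {M : E → Matrix ι κ ℝ} {N : E → Matrix κ ρ ℝ}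
    (hN : SMat N) : SMat (fun x => M x * N x) := by
  intro a b
  simp only [Matrix.mul_apply]
  exact HasCompactSupport.fsum _ (fun k _ => (hN k b).mul_left)

theorem SMat.mul_right [Fintype κ] {M : E → Matrix ι κ ℝ} {N : E → Matrix κ ρ ℝ}
    (hM : SMat M) : SMat (fun x => M x * N x) := by
  intro a b
  simp only [Matrix.mul_apply]
  exact HasCompactSupport.fsum _ (fun k _ => (hM a k).mul_right)

theorem SMat.add {M N : E → Matrix ι κ ℝ} (hM : SMat M) (hN : SMat N) :
    SMat (fun x => M x + N x) := fun a b => (hM a b).add (hN a b)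

theorem SMat.sub {M N : E → Matrix ι κ ℝ} (hM : SMat M) (hN : SMat N) :
    SMat (fun x => M x - N x) := fun a b => (hM a b).sub (hN a b)

theorem SMat.neg {M : E → Matrix ι κ ℝ} (hM : SMat M) : SMat (fun x => - M x) := by
  intro a b
  have h0 : (fun x => (- M x) a b) = fun x => (-1 : ℝ) * M x a b := by
    funext x; simp
  rw [h0]
  exact HasCompactSupport.mul_left (f := fun _ => (-1 : ℝ)) (f' := fun x => M x a b) (hM a b)

theorem SMat.trace [Fintype ι] {M : E → Matrix ι ι ℝ} (hM : SMat M) :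
    HasCompactSupport (fun x => (M x).trace) := by
  simp only [Matrix.trace, Matrix.diag_apply]
  exact HasCompactSupport.fsum _ (fun k _ => hM k k)

end

/-- The jet of the potential `V` (Hessian `G`, third derivatives `T i = D_i G`, fourth derivatives
`U i j = D_j (T i)`, inverse Hessian `τ`), the coordinates `X i`, and
`W = x.grad V - V - log det G` with its first and second derivatives. -/
structure VJet (E ι : Type*) [NormedAddCommGroup E] [NormedSpace ℝ E] [Fintype ι]
    [DecidableEq ι] where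
  e : ι → E
  X : ι → E → ℝ
  G : E → Matrix ι ι ℝ
  τ : E → Matrix ι ι ℝ
  T : ι → E → Matrix ι ι ℝ
  U : ι → ι → E → Matrix ι ι ℝ
  W : E → ℝ
  W1 : ι → E → ℝ
  W2 : E → Matrix ι ι ℝ
  dX : ∀ i j, PD (e j) (X i) (fun _ => if i = j then 1 else 0)
  cX : ∀ i, Continuous (X i)
  dG : ∀ i, PDM (e i) G (T i)
  dT : ∀ i j, PDM (e j) (T i) (U i j)
  dτ : ∀ i, PDM (e i) τ (fun x => - (τ x * T i x * τ x))
  cG : CMat G
  cτ : CMat τ
  cT : ∀ i, CMat (T i)
  cU : ∀ i j, CMat (U i j)
  gt : ∀ x, G x * τ x = 1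
  tg : ∀ x, τ x * G x = 1
  pd : ∀ x, (τ x).PosSemidef
  Gsym : ∀ x a b, G x a b = G x b a
  Tsym : ∀ i x a b, T i x a b = T i x b a
  Tsym' : ∀ i x a b, T i x a b = T a x i b
  Usym : ∀ i j x a b, U i j x a b = U i j x b a
  Usym' : ∀ i j x a b, U i j x a b = U j i x a b
  Usym'' : ∀ i j x a b, U i j x a b = U i a x j b
  dW : ∀ i, PD (e i) W (W1 i)
  cW : Continuous W
  W1_eq : ∀ k x, W1 k x = ∑ i, X i x * G x i k - (τ x * T k x).trace
  W2_eq : ∀ k l x, W2 x k l = G x k l + ∑ i, X i x * T i x k l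
    + (τ x * T l x * τ x * T k x).trace - (τ x * U k l x).trace

namespace VJet

variable {E ι : Type*} [NormedAddCommGroup E] [NormedSpace ℝ E] [Fintype ι] [DecidableEq ι]
  (D : VJet E ι)

theorem τsym (x : E) (a b : ι) : D.τ x a b = D.τ x b a := by
  have h := (D.pd x).isHermitian
  have := congrFun (congrFun h b) a
  simpa using this

theorem τT (x : E) : (D.τ x).transpose = D.τ x := by
  ext a b; exact D.τsym x b a

theorem GT (x : E) : (D.G x).transpose = D.G x := by
  ext a b; exact D.Gsym x b a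

theorem TT (i : ι) (x : E) : (D.T i x).transpose = D.T i x := by
  ext a b; exact D.Tsym i x b a

theorem cW1 (k : ι) : Continuous (D.W1 k) := by
  have : D.W1 k = fun x => ∑ i, D.X i x * D.G x i k - (D.τ x * D.T k x).trace :=
    funext (D.W1_eq k)
  rw [this]
  exact (continuous_finsetSum _ (fun i _ => (D.cX i).mul (D.cG i k))).sub
    (CMat.trace (D.cτ.mul (D.cT k)))

theorem cW2 : CMat D.W2 := by
  intro k l
  have : (fun x => D.W2 x k l) = fun x => D.G x k l + ∑ i, D.X i x * D.T i x k l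
    + (D.τ x * D.T l x * D.τ x * D.T k x).trace - (D.τ x * D.U k l x).trace :=
    funext (D.W2_eq k l)
  rw [this]
  refine (((D.cG k l).add (continuous_finsetSum _ (fun i _ => (D.cX i).mul (D.cT i k l)))).add
    (CMat.trace (((D.cτ.mul (D.cT l)).mul D.cτ).mul (D.cT k)))).sub
    (CMat.trace (D.cτ.mul (D.cU k l)))

theorem dW1 (k l : ι) : PD (D.e l) (D.W1 k) (fun x => D.W2 x k l) := by
  have h1 : PD (D.e l) (fun x => ∑ i, D.X i x * D.G x i k)
      (fun x => ∑ i, ((if i = l then 1 else 0) * D.G x i k + D.X i x * D.T l x i k)) :=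
    PD.sum _ (fun i _ => (D.dX i l).mul (D.dG l i k))
  have h2 := ((D.dτ l).mul (D.dT k l)).trace
  refine (h1.sub h2).congr (fun x => D.W1_eq k x) (fun x => ?_)
  rw [D.W2_eq, Finset.sum_add_distrib, Matrix.trace_add]
  have e1 : ∑ i, (if i = l then (1:ℝ) else 0) * D.G x i k = D.G x k l := by
    simp [D.Gsym x k l]
  have e2 : ∑ i, D.X i x * D.T l x i k = ∑ i, D.X i x * D.T i x k l := by
    refine Finset.sum_congr rfl (fun i _ => ?_)
    rw [D.Tsym' l x i k, D.Tsym i x l k]
  have e3 : (-(D.τ x * D.T l x * D.τ x) * D.T k x).trace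
      = - (D.τ x * D.T l x * D.τ x * D.T k x).trace := by
    rw [Matrix.neg_mul, Matrix.trace_neg]
  rw [e1, e2, e3]
  ring

/-- `div* τ = x` -/
theorem div_τ (x : E) (j : ι) :
    ∑ i, (D.W1 i x * D.τ x i j + (D.τ x * D.T i x * D.τ x) i j) = D.X j x := by
  have e1 : ∀ i, D.W1 i x * D.τ x i j
      = ∑ k, D.X k x * D.G x k i * D.τ x i j - (D.τ x * D.T i x).trace * D.τ x i j := by
    intro i
    rw [D.W1_eq, sub_mul, Finset.sum_mul]
  have e2 : ∑ i, ∑ k, D.X k x * D.G x k i * D.τ x i j = D.X j x := by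
    rw [Finset.sum_comm]
    have : ∀ k, ∑ i, D.X k x * D.G x k i * D.τ x i j
        = D.X k x * (1 : Matrix ι ι ℝ) k j := by
      intro k
      rw [← D.gt x, Matrix.mul_apply, Finset.mul_sum]
      exact Finset.sum_congr rfl (fun i _ => by ring)
    simp only [this, Matrix.one_apply]
    simp
  have e3 : ∑ i, (D.τ x * D.T i x).trace * D.τ x i j = ∑ i, (D.τ x * D.T i x * D.τ x) i j := by
    have f1 : ∀ i, (D.τ x * D.T i x).trace * D.τ x i j
        = ∑ a, ∑ b, D.τ x a b * D.T i x b a * D.τ x i j := by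
      intro i
      simp only [Matrix.trace, Matrix.diag_apply, Matrix.mul_apply, Finset.sum_mul]
    have f2 : ∀ i, (D.τ x * D.T i x * D.τ x) i j
        = ∑ b, ∑ a, D.τ x i a * D.T i x a b * D.τ x b j := by
      intro i
      simp only [Matrix.mul_apply, Finset.sum_mul]
    simp only [f1, f2]
    rw [Finset.sum_comm]
    have f3 : ∀ a, ∑ i, ∑ b, D.τ x a b * D.T i x b a * D.τ x i j
        = ∑ b, ∑ i, D.τ x a i * D.T a x i b * D.τ x b j := by
      intro a
      refine Finset.sum_congr rfl (fun i _ => Finset.sum_congr rfl (fun b _ => ?_))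
      rw [D.Tsym i x b a, D.Tsym' i x a b, D.Tsym a x i b]
    simp only [f3]
  simp only [Finset.sum_add_distrib, e1, Finset.sum_sub_distrib]
  rw [e2, e3]
  ring

variable [FiniteDimensional ℝ E] [MeasurableSpace E] [BorelSpace E]

/-- `Ex D μ F = ∫ F e^{-W} dμ` -/
noncomputable def Ex (μ : Measure E) (F : E → ℝ) : ℝ := ∫ x, F x * Real.exp (- D.W x) ∂μ

variable {μ : Measure E} [μ.IsAddHaarMeasure]

omit [FiniteDimensional ℝ E] in
theorem integ {F : E → ℝ} (cF : Continuous F) (hs : HasCompactSupport F) :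
    Integrable (fun x => F x * Real.exp (- D.W x)) μ := by
  apply Continuous.integrable_of_hasCompactSupport
  · exact cF.mul (Real.continuous_exp.comp D.cW.neg)
  · exact hs.mul_right

omit [FiniteDimensional ℝ E] in
theorem Ex_add {F F' : E → ℝ} (cF : Continuous F) (hs : HasCompactSupport F)
    (cF' : Continuous F') (hs' : HasCompactSupport F') :
    D.Ex μ (fun x => F x + F' x) = D.Ex μ F + D.Ex μ F' := by
  unfold Ex
  rw [← integral_add (D.integ cF hs) (D.integ cF' hs')]
  exact integral_congr_ae (Filter.Eventually.of_forall fun x => by simp only; ring)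

omit [FiniteDimensional ℝ E] in
theorem Ex_sub {F F' : E → ℝ} (cF : Continuous F) (hs : HasCompactSupport F)
    (cF' : Continuous F') (hs' : HasCompactSupport F') :
    D.Ex μ (fun x => F x - F' x) = D.Ex μ F - D.Ex μ F' := by
  unfold Ex
  rw [← integral_sub (D.integ cF hs) (D.integ cF' hs')]
  exact integral_congr_ae (Filter.Eventually.of_forall fun x => by simp only; ring)

omit [FiniteDimensional ℝ E] [BorelSpace E] [μ.IsAddHaarMeasure] in
theorem Ex_const_mul (c : ℝ) (F : E → ℝ) :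
    D.Ex μ (fun x => c * F x) = c * D.Ex μ F := by
  unfold Ex
  rw [← integral_const_mul]
  exact integral_congr_ae (Filter.Eventually.of_forall fun x => by simp only; ring)

omit [FiniteDimensional ℝ E] in
theorem Ex_sum {κ : Type*} (s : Finset κ) {F : κ → E → ℝ} (cF : ∀ k ∈ s, Continuous (F k))
    (hs : ∀ k ∈ s, HasCompactSupport (F k)) :
    D.Ex μ (fun x => ∑ k ∈ s, F k x) = ∑ k ∈ s, D.Ex μ (F k) := by
  unfold Ex
  rw [← integral_finsetSum _ (fun k hk => D.integ (cF k hk) (hs k hk))]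
  exact integral_congr_ae (Filter.Eventually.of_forall fun x => by
    simp only [Finset.sum_mul])

omit [FiniteDimensional ℝ E] [BorelSpace E] [μ.IsAddHaarMeasure] in
theorem Ex_congr {F F' : E → ℝ} (h : ∀ x, F x = F' x) : D.Ex μ F = D.Ex μ F' := by
  unfold Ex
  exact integral_congr_ae (Filter.Eventually.of_forall fun x => by simp only [h])

omit [FiniteDimensional ℝ E] [BorelSpace E] [μ.IsAddHaarMeasure] in
theorem Ex_nonneg {F : E → ℝ} (h : ∀ x, 0 ≤ F x) : 0 ≤ D.Ex μ F :=
  integral_nonneg fun x => mul_nonneg (h x) (Real.exp_pos _).le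

/-- integration by parts `E (D_i F) u = E F (W_i u - D_i u)` -/
theorem Ex_ibp (i : ι) {F F' u u' : E → ℝ}
    (hF : PD (D.e i) F F') (cF : Continuous F) (cF' : Continuous F')
    (hu : PD (D.e i) u u') (cu : Continuous u) (cu' : Continuous u')
    (hs : HasCompactSupport F ∨ HasCompactSupport u) :
    D.Ex μ (fun x => F' x * u x) = D.Ex μ (fun x => F x * (D.W1 i x * u x - u' x)) :=
  ibp_mul (D.dW i) D.cW (D.cW1 i) hF cF cF' hu cu cu' hs

/-- summed integration by parts: `E sum_i (D_i F) u_i = E F sum_i (W_i u_i - D_i u_i)` -/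
theorem Ex_ibp_sum {F : E → ℝ} {F' u u' : ι → E → ℝ}
    (hF : ∀ i, PD (D.e i) F (F' i)) (cF : Continuous F) (cF' : ∀ i, Continuous (F' i))
    (hu : ∀ i, PD (D.e i) (u i) (u' i)) (cu : ∀ i, Continuous (u i))
    (cu' : ∀ i, Continuous (u' i))
    (hs : HasCompactSupport F ∨ ∀ i, HasCompactSupport (u i)) :
    D.Ex μ (fun x => ∑ i, F' i x * u i x)
      = D.Ex μ (fun x => F x * ∑ i, (D.W1 i x * u i x - u' i x)) := by
  have hs1 : ∀ i, HasCompactSupport F ∨ HasCompactSupport (u i) := by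
    intro i; rcases hs with h | h
    · exact Or.inl h
    · exact Or.inr (h i)
  rw [D.Ex_sum (F := fun i x => F' i x * u i x) Finset.univ
    (fun i _ => (cF' i).mul (cu i)) (fun i _ => ?_)]
  · have e : ∀ x, F x * ∑ i, (D.W1 i x * u i x - u' i x)
        = ∑ i, F x * (D.W1 i x * u i x - u' i x) := fun x => by rw [Finset.mul_sum]
    rw [D.Ex_congr e, D.Ex_sum (F := fun i x => F x * (D.W1 i x * u i x - u' i x)) Finset.univ
      (fun i _ => cF.mul (((D.cW1 i).mul (cu i)).sub (cu' i))) (fun i _ => ?_)]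
    · exact Finset.sum_congr rfl (fun i _ =>
        D.Ex_ibp i (hF i) cF (cF' i) (hu i) (cu i) (cu' i) (hs1 i))
    · rcases hs1 i with h | h
      · exact h.mul_right
      · exact (h.mul_left.sub ((hu i).hasCompactSupport h)).mul_left
  · rcases hs1 i with h | h
    · exact ((hF i).hasCompactSupport h).mul_right
    · exact h.mul_left

/-- the pairing `E F (A w) = E sum tau_ij (D_i F) (D_j w)`,
`A w = sum_k X_k w_k - sum tau_kl w_kl`; here `F` or the gradient of `w` has compact support -/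
theorem Ex_pair {F : E → ℝ} {F' w1 : ι → E → ℝ} {w2 : ι → ι → E → ℝ}
    (hF : ∀ i, PD (D.e i) F (F' i)) (cF : Continuous F) (cF' : ∀ i, Continuous (F' i))
    (hw : ∀ j i, PD (D.e i) (w1 j) (w2 j i)) (cw1 : ∀ j, Continuous (w1 j))
    (cw2 : ∀ j i, Continuous (w2 j i))
    (hs : HasCompactSupport F ∨ ∀ i, HasCompactSupport (w1 i)) :
    D.Ex μ (fun x => F x * (∑ k, D.X k x * w1 k x - ∑ i, ∑ j, D.τ x i j * w2 j i x))
      = D.Ex μ (fun x => ∑ i, F' i x * ∑ j, D.τ x i j * w1 j x) := by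
  have hu : ∀ i, PD (D.e i) (fun x => ∑ j, D.τ x i j * w1 j x)
      (fun x => ∑ j, (-(D.τ x * D.T i x * D.τ x) i j * w1 j x + D.τ x i j * w2 j i x)) :=
    fun i => PD.sum _ (fun j _ => (D.dτ i i j).mul (hw j i))
  have cu : ∀ i, Continuous (fun x => ∑ j, D.τ x i j * w1 j x) := fun i =>
    continuous_finsetSum _ (fun j _ => (D.cτ i j).mul (cw1 j))
  have cu' : ∀ i, Continuous (fun x => ∑ j, (-(D.τ x * D.T i x * D.τ x) i j * w1 j x
      + D.τ x i j * w2 j i x)) := fun i =>
    continuous_finsetSum _ (fun j _ =>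
      ((((D.cτ.mul (D.cT i)).mul D.cτ) i j).neg.mul (cw1 j)).add ((D.cτ i j).mul (cw2 j i)))
  have hs2 : HasCompactSupport F ∨ ∀ i, HasCompactSupport (fun x => ∑ j, D.τ x i j * w1 j x) := by
    rcases hs with h | h
    · exact Or.inl h
    · exact Or.inr (fun i => HasCompactSupport.fsum _ (fun j _ => (h j).mul_left))
  rw [D.Ex_ibp_sum hF cF cF' hu cu cu' hs2]
  refine D.Ex_congr (fun x => ?_)
  congr 1
  have e1 : ∀ i, D.W1 i x * ∑ j, D.τ x i j * w1 j x
      - ∑ j, (-(D.τ x * D.T i x * D.τ x) i j * w1 j x + D.τ x i j * w2 j i x)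
      = ∑ j, (D.W1 i x * D.τ x i j + (D.τ x * D.T i x * D.τ x) i j) * w1 j x
        - ∑ j, D.τ x i j * w2 j i x := by
    intro i
    rw [Finset.mul_sum, ← Finset.sum_sub_distrib, ← Finset.sum_sub_distrib]
    exact Finset.sum_congr rfl (fun j _ => by ring)
  simp only [e1, Finset.sum_sub_distrib]
  congr 1
  rw [Finset.sum_comm]
  refine Finset.sum_congr rfl (fun j _ => ?_)
  rw [← Finset.sum_mul, D.div_τ]

end VJet

/-- The jet of a compactly supported function `h`: Hessian `B`, third derivatives `S i = D_i B`,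
fourth derivatives `R i j = D_j (S i)`; `v = div* N`, `N = τ B τ`, with derivatives
`v1 i j = D_j v_i` and `v2 i j k = D_k (v1 i j)`. -/
structure HJet {E ι : Type*} [NormedAddCommGroup E] [NormedSpace ℝ E] [Fintype ι]
    [DecidableEq ι] (D : VJet E ι) where
  B : E → Matrix ι ι ℝ
  S : ι → E → Matrix ι ι ℝ
  R : ι → ι → E → Matrix ι ι ℝ
  v : ι → E → ℝ
  v1 : ι → ι → E → ℝ
  v2 : ι → ι → ι → E → ℝ
  dB : ∀ i, PDM (D.e i) B (S i)
  dS : ∀ i j, PDM (D.e j) (S i) (R i j)
  dv : ∀ i j, PD (D.e j) (v i) (v1 i j)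
  dv1 : ∀ i j k, PD (D.e k) (v1 i j) (v2 i j k)
  cB : CMat B
  cS : ∀ i, CMat (S i)
  cR : ∀ i j, CMat (R i j)
  cv2 : ∀ i j k, Continuous (v2 i j k)
  cv1 : ∀ i j, Continuous (v1 i j)
  cv : ∀ i, Continuous (v i)
  sB : SMat B
  Bsym : ∀ x a b, B x a b = B x b a
  Ssym : ∀ i x a b, S i x a b = S i x b a
  Ssym' : ∀ i x a b, S i x a b = S a x i b
  Rsym : ∀ i j x a b, R i j x a b = R i j x b a
  Rsym' : ∀ i j x a b, R i j x a b = R j i x a b
  Rsym'' : ∀ i j x a b, R i j x a b = R i a x j b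
  v_eq : ∀ j x, v j x = ∑ i, (D.W1 i x * (D.τ x * B x * D.τ x) i j
    - (D.τ x * S i x * D.τ x - D.τ x * D.T i x * (D.τ x * B x * D.τ x)
      - (D.τ x * B x * D.τ x) * D.T i x * D.τ x) i j)
  v2sym : ∀ i j k x, v2 i j k x = v2 i k j x
  vG : ∀ x i j, ∑ k, D.G x i k * v1 k j x = ∑ k, D.G x j k * v1 k i x

namespace HJet

variable {E ι : Type*} [NormedAddCommGroup E] [NormedSpace ℝ E] [Fintype ι] [DecidableEq ι]
  {D : VJet E ι} (H : HJet D)

/-- `N = τ B τ` -/
def N (x : E) : Matrix ι ι ℝ := D.τ x * H.B x * D.τ x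

/-- `N1 i = D_i N` -/
def N1 (i : ι) (x : E) : Matrix ι ι ℝ :=
  D.τ x * H.S i x * D.τ x - D.τ x * D.T i x * H.N x - H.N x * D.T i x * D.τ x

/-- `C = τ B τ B τ` -/
def C (x : E) : Matrix ι ι ℝ := D.τ x * H.B x * D.τ x * H.B x * D.τ x

def bb (x : E) : ℝ := (D.τ x * H.B x * D.τ x * H.B x).trace
def ss (x : E) : ℝ := ∑ i, ∑ j, D.τ x i j * (H.S i x * D.τ x * H.S j x * D.τ x).trace
def pp (x : E) : ℝ := ∑ i, ∑ j, D.τ x i j * (H.S i x * D.τ x * D.T j x * H.N x).trace
def q1 (x : E) : ℝ := ∑ i, ∑ j, D.τ x i j * (D.T i x * D.τ x * D.T j x * H.C x).trace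
def q2 (x : E) : ℝ := ∑ i, ∑ j, D.τ x i j * (D.T i x * H.N x * D.T j x * H.N x).trace
def ww (x : E) : ℝ := (D.W2 x * H.C x).trace
/-- `g = div* v` -/
def g (x : E) : ℝ := ∑ i, (D.W1 i x * H.v i x - H.v1 i i x)
/-- `tr (Dv τ B)` -/
def cc (x : E) : ℝ := ∑ i, ∑ j, H.v1 i j x * (D.τ x * H.B x) j i

theorem v_eq' (j : ι) (x : E) : H.v j x = ∑ i, (D.W1 i x * H.N x i j - H.N1 i x i j) :=
  H.v_eq j x

theorem BT (x : E) : (H.B x).transpose = H.B x := by
  ext a b; exact H.Bsym x b a

theorem ST (i : ι) (x : E) : (H.S i x).transpose = H.S i x := by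
  ext a b; exact H.Ssym i x b a

theorem NT (x : E) : (H.N x).transpose = H.N x := by
  unfold N
  rw [Matrix.transpose_mul, Matrix.transpose_mul, D.τT, H.BT, Matrix.mul_assoc]

theorem Nsym (x : E) (a b : ι) : H.N x a b = H.N x b a := by
  have := congrFun (congrFun (H.NT x) b) a
  simpa using this

theorem dN (i : ι) : PDM (D.e i) H.N (H.N1 i) := by
  have h := ((D.dτ i).mul (H.dB i)).mul (D.dτ i)
  refine h.congr (fun x => rfl) (fun x => ?_)
  unfold N1 N
  simp only [Matrix.add_mul, Matrix.mul_neg, Matrix.neg_mul, Matrix.mul_assoc]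
  abel

theorem sN : SMat H.N := (SMat.mul_left H.sB).mul_right

theorem cN : CMat H.N := (D.cτ.mul H.cB).mul D.cτ

theorem cN1 (i : ι) : CMat (H.N1 i) :=
  (((D.cτ.mul (H.cS i)).mul D.cτ).sub ((D.cτ.mul (D.cT i)).mul H.cN)).sub
    ((H.cN.mul (D.cT i)).mul D.cτ)

theorem sS (i : ι) : SMat (H.S i) := fun a b => (H.dB i a b).hasCompactSupport (H.sB a b)

theorem sR (i j : ι) : SMat (H.R i j) := fun a b => (H.dS i j a b).hasCompactSupport (H.sS i a b)

theorem sN1 (i : ι) : SMat (H.N1 i) := fun a b => (H.dN i a b).hasCompactSupport (H.sN a b)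

theorem sv (j : ι) : HasCompactSupport (H.v j) := by
  have : H.v j = fun x => ∑ i, (D.W1 i x * H.N x i j - H.N1 i x i j) := funext (H.v_eq' j)
  rw [this]
  exact HasCompactSupport.fsum _ (fun i _ => (H.sN i j).mul_left.sub (H.sN1 i i j))

theorem sv1 (i j : ι) : HasCompactSupport (H.v1 i j) := (H.dv i j).hasCompactSupport (H.sv i)

theorem sv2 (i j k : ι) : HasCompactSupport (H.v2 i j k) :=
  (H.dv1 i j k).hasCompactSupport (H.sv1 i j)

theorem cC : CMat H.C := (((D.cτ.mul H.cB).mul D.cτ).mul H.cB).mul D.cτ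

theorem sC : SMat H.C := (((SMat.mul_left H.sB).mul_right).mul_right).mul_right

end HJet

end Pool.Agent.Helper2.MM
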