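import Pool.Agent.Helper2.MM.Data

/-! Row K1: the flat Bochner identity `E (div* v)^2 = E W_ij v_i v_j + E v_{i,j} v_{j,i}`. -/

namespace Pool.Agent.Helper2.MM

open MeasureTheory Matrix

namespace HJet

variable {E ι : Type*} [NormedAddCommGroup E] [NormedSpace ℝ E] [Fintype ι] [DecidableEq ι]
  {D : VJet E ι} (H : HJet D)

/-- the gradient of `g` -/
def g1 (j : ι) (x : E) : ℝ :=
  ∑ i, (D.W2 x i j * H.v i x + D.W1 i x * H.v1 i j x - H.v2 i i j x)

theorem dg (j : ι) : PD (D.e j) H.g (H.g1 j) := by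
  have h : ∀ i, PD (D.e j) (fun x => D.W1 i x * H.v i x - H.v1 i i x)
      (fun x => (D.W2 x i j * H.v i x + D.W1 i x * H.v1 i j x) - H.v2 i i j x) :=
    fun i => ((D.dW1 i j).mul (H.dv i j)).sub (H.dv1 i i j)
  exact PD.sum _ (fun i _ => h i)

theorem cg : Continuous H.g :=
  continuous_finsetSum _ (fun i _ => ((D.cW1 i).mul (H.cv i)).sub (H.cv1 i i))

theorem cg1 (j : ι) : Continuous (H.g1 j) :=
  continuous_finsetSum _ (fun i _ => (((D.cW2 i j).mul (H.cv i)).add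
    ((D.cW1 i).mul (H.cv1 i j))).sub (H.cv2 i i j))

theorem sg : HasCompactSupport H.g :=
  HasCompactSupport.fsum _ (fun i _ => (H.sv i).mul_left.sub (H.sv1 i i))

variable [FiniteDimensional ℝ E] [MeasurableSpace E] [BorelSpace E]
  (μ : Measure E) [μ.IsAddHaarMeasure]

theorem K1 : D.Ex μ (fun x => H.g x ^ 2)
    = D.Ex μ (fun x => (∑ i, ∑ j, D.W2 x i j * H.v i x * H.v j x)
        + ∑ i, ∑ j, H.v1 i j x * H.v1 j i x) := by
  have h1 := D.Ex_ibp_sum (μ := μ) (F := H.g) (F' := H.g1) (u := H.v) (u' := fun i => H.v1 i i)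
    H.dg H.cg H.cg1 (fun i => H.dv i i) H.cv (fun i => H.cv1 i i) (Or.inl H.sg)
  have h2 : ∀ j, D.Ex μ (fun x => ∑ i, H.v1 j i x * H.v1 i j x)
      = D.Ex μ (fun x => H.v j x * ∑ i, (D.W1 i x * H.v1 i j x - H.v2 i j i x)) := fun j =>
    D.Ex_ibp_sum (F := H.v j) (F' := H.v1 j) (u := fun i => H.v1 i j)
      (u' := fun i => H.v2 i j i) (H.dv j) (H.cv j) (H.cv1 j) (fun i => H.dv1 i j i)
      (fun i => H.cv1 i j) (fun i => H.cv2 i j i) (Or.inl (H.sv j))
  -- continuity and supports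
  have c1 : Continuous (fun x => ∑ i, ∑ j, D.W2 x i j * H.v i x * H.v j x) :=
    continuous_finsetSum _ (fun i _ => continuous_finsetSum _ (fun j _ =>
      ((D.cW2 i j).mul (H.cv i)).mul (H.cv j)))
  have s1 : HasCompactSupport (fun x => ∑ i, ∑ j, D.W2 x i j * H.v i x * H.v j x) :=
    HasCompactSupport.fsum _ (fun i _ => HasCompactSupport.fsum _ (fun j _ =>
      HasCompactSupport.mul_left (f := fun x => D.W2 x i j * H.v i x) (H.sv j)))
  have c2 : ∀ j, Continuous (fun x => ∑ i, H.v1 j i x * H.v1 i j x) := fun j =>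
    continuous_finsetSum _ (fun i _ => (H.cv1 j i).mul (H.cv1 i j))
  have s2 : ∀ j, HasCompactSupport (fun x => ∑ i, H.v1 j i x * H.v1 i j x) := fun j =>
    HasCompactSupport.fsum _ (fun i _ => (H.sv1 i j).mul_left)
  have c3 : ∀ j, Continuous (fun x => H.v j x * ∑ i, (D.W1 i x * H.v1 i j x - H.v2 i j i x)) :=
    fun j => (H.cv j).mul (continuous_finsetSum _ (fun i _ =>
      ((D.cW1 i).mul (H.cv1 i j)).sub (H.cv2 i j i)))
  have s3 : ∀ j, HasCompactSupport
      (fun x => H.v j x * ∑ i, (D.W1 i x * H.v1 i j x - H.v2 i j i x)) :=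
    fun j => (H.sv j).mul_right
  have c2' : Continuous (fun x => ∑ j, ∑ i, H.v1 j i x * H.v1 i j x) :=
    continuous_finsetSum _ (fun j _ => c2 j)
  have s2' : HasCompactSupport (fun x => ∑ j, ∑ i, H.v1 j i x * H.v1 i j x) :=
    HasCompactSupport.fsum _ (fun j _ => s2 j)
  have e0 : D.Ex μ (fun x => H.g x ^ 2) = D.Ex μ (fun x => ∑ i, H.g1 i x * H.v i x) := by
    rw [h1]
    refine D.Ex_congr (fun x => ?_)
    rw [pow_two]; rfl
  rw [e0, D.Ex_add c1 s1 c2' s2', D.Ex_sum (F := fun j x => ∑ i, H.v1 j i x * H.v1 i j x)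
    Finset.univ (fun j _ => c2 j) (fun j _ => s2 j)]
  simp only [h2]
  rw [← D.Ex_sum (F := fun j x => H.v j x * ∑ i, (D.W1 i x * H.v1 i j x - H.v2 i j i x))
    Finset.univ (fun j _ => c3 j) (fun j _ => s3 j),
    ← D.Ex_add c1 s1 (continuous_finsetSum _ (fun j _ => c3 j))
      (HasCompactSupport.fsum _ (fun j _ => s3 j))]
  refine D.Ex_congr (fun x => ?_)
  have f1 : ∀ j, H.g1 j x * H.v j x = ∑ i, D.W2 x i j * H.v i x * H.v j x
      + H.v j x * ∑ i, (D.W1 i x * H.v1 i j x - H.v2 i j i x) := by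
    intro j
    unfold g1
    rw [Finset.mul_sum, Finset.sum_mul, ← Finset.sum_add_distrib]
    refine Finset.sum_congr rfl (fun i _ => ?_)
    rw [H.v2sym i j i x]
    ring
  simp only [f1, Finset.sum_add_distrib]
  congr 1
  rw [Finset.sum_comm]

end HJet

end Pool.Agent.Helper2.MM
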