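import Pool.Agent.Helper2.MM.K5

/-! Row K3: `E tr(Dv τ B) = b + s - p`. -/

namespace Pool.Agent.Helper2.MM

open MeasureTheory Matrix

namespace HJet

variable {E ι : Type*} [NormedAddCommGroup E] [NormedSpace ℝ E] [Fintype ι] [DecidableEq ι]
  {D : VJet E ι} (H : HJet D)

/-- `A h_i` -/
def AH (i : ι) (x : E) : ℝ :=
  ∑ k, D.X k x * H.B x k i - ∑ a, ∑ b, D.τ x a b * H.S a x b i

/-- `D_j (A h_i)` -/
def AH1 (i j : ι) (x : E) : ℝ :=
  ∑ k, ((if k = j then 1 else 0) * H.B x k i + D.X k x * H.S j x k i)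
    - ∑ a, ∑ b, (-(D.τ x * D.T j x * D.τ x) a b * H.S a x b i + D.τ x a b * H.R a j x b i)

theorem dAH (i j : ι) : PD (D.e j) (H.AH i) (H.AH1 i j) :=
  (PD.sum _ (fun k _ => (D.dX k j).mul (H.dB j k i))).sub
    (PD.sum _ (fun a _ => PD.sum _ (fun b _ => (D.dτ j a b).mul (H.dS a j b i))))

theorem cAH (i : ι) : Continuous (H.AH i) :=
  (continuous_finsetSum _ (fun k _ => (D.cX k).mul (H.cB k i))).sub
    (continuous_finsetSum _ (fun a _ => continuous_finsetSum _ (fun b _ =>
      (D.cτ a b).mul (H.cS a b i))))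

theorem cAH1 (i j : ι) : Continuous (H.AH1 i j) :=
  (continuous_finsetSum _ (fun k _ => (continuous_const.mul (H.cB k i)).add
    ((D.cX k).mul (H.cS j k i)))).sub
    (continuous_finsetSum _ (fun a _ => continuous_finsetSum _ (fun b _ =>
      (((((D.cτ.mul (D.cT j)).mul D.cτ) a b).neg.mul (H.cS a b i)).add
        ((D.cτ a b).mul (H.cR a j b i))))))

theorem step1_pt (i : ι) (x : E) :
    ∑ j, (D.W1 j x * (D.τ x * H.B x) j i
      - (-(D.τ x * D.T j x * D.τ x) * H.B x + D.τ x * H.S j x) j i) = H.AH i x := by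
  unfold AH
  have e1 : ∀ j, D.W1 j x * (D.τ x * H.B x) j i
      - (-(D.τ x * D.T j x * D.τ x) * H.B x + D.τ x * H.S j x) j i
      = ∑ k, (D.W1 j x * D.τ x j k + (D.τ x * D.T j x * D.τ x) j k) * H.B x k i
        - ∑ b, D.τ x j b * H.S j x b i := by
    intro j
    rw [Matrix.neg_mul, Matrix.add_apply, Matrix.neg_apply, Matrix.mul_apply, Matrix.mul_apply,
      Matrix.mul_apply, Finset.mul_sum]
    simp only [add_mul, Finset.sum_add_distrib]
    have : ∀ k, D.W1 j x * (D.τ x j k * H.B x k i) = D.W1 j x * D.τ x j k * H.B x k i :=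
      fun k => by ring
    simp only [this]
    ring
  simp only [e1, Finset.sum_sub_distrib]
  congr 1
  rw [Finset.sum_comm]
  refine Finset.sum_congr rfl (fun k _ => ?_)
  rw [← Finset.sum_mul, D.div_τ]

theorem third_pt (x : E) :
    ∑ i, ∑ j, H.N x j i * ∑ a, ∑ b, (D.τ x * D.T j x * D.τ x) a b * H.S a x b i = H.pp x := by
  have e1 : ∀ j a b, (D.τ x * D.T j x * D.τ x) a b
      = ∑ c, D.τ x a c * (D.T c x * D.τ x) j b := by
    intro j a b
    rw [Matrix.mul_assoc, Matrix.mul_apply]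
    refine Finset.sum_congr rfl (fun c _ => ?_)
    rw [Matrix.mul_apply, Matrix.mul_apply]
    congr 1
    refine Finset.sum_congr rfl (fun d _ => ?_)
    rw [D.Tsym' j x c d]
  calc ∑ i, ∑ j, H.N x j i * ∑ a, ∑ b, (D.τ x * D.T j x * D.τ x) a b * H.S a x b i
      = ∑ i, ∑ j, ∑ a, ∑ b, ∑ c, D.τ x a c
          * (H.N x i j * ((D.T c x * D.τ x) j b * H.S a x b i)) := by
        refine Finset.sum_congr rfl (fun i _ => Finset.sum_congr rfl (fun j _ => ?_))
        rw [Finset.mul_sum]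
        refine Finset.sum_congr rfl (fun a _ => ?_)
        rw [Finset.mul_sum]
        refine Finset.sum_congr rfl (fun b _ => ?_)
        rw [e1, Finset.sum_mul, Finset.mul_sum]
        refine Finset.sum_congr rfl (fun c _ => ?_)
        rw [H.Nsym x j i]
        ring
    _ = ∑ i, ∑ a, ∑ j, ∑ b, ∑ c, D.τ x a c
          * (H.N x i j * ((D.T c x * D.τ x) j b * H.S a x b i)) :=
        Finset.sum_congr rfl (fun i _ => Finset.sum_comm)
    _ = ∑ a, ∑ i, ∑ j, ∑ b, ∑ c, D.τ x a c
          * (H.N x i j * ((D.T c x * D.τ x) j b * H.S a x b i)) := Finset.sum_comm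
    _ = ∑ a, ∑ i, ∑ j, ∑ c, ∑ b, D.τ x a c
          * (H.N x i j * ((D.T c x * D.τ x) j b * H.S a x b i)) :=
        Finset.sum_congr rfl (fun a _ => Finset.sum_congr rfl (fun i _ =>
          Finset.sum_congr rfl (fun j _ => Finset.sum_comm)))
    _ = ∑ a, ∑ i, ∑ c, ∑ j, ∑ b, D.τ x a c
          * (H.N x i j * ((D.T c x * D.τ x) j b * H.S a x b i)) :=
        Finset.sum_congr rfl (fun a _ => Finset.sum_congr rfl (fun i _ => Finset.sum_comm))
    _ = ∑ a, ∑ c, ∑ i, ∑ j, ∑ b, D.τ x a c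
          * (H.N x i j * ((D.T c x * D.τ x) j b * H.S a x b i)) :=
        Finset.sum_congr rfl (fun a _ => Finset.sum_comm)
    _ = ∑ a, ∑ c, D.τ x a c * (H.N x * (D.T c x * D.τ x * H.S a x)).trace := by
        refine Finset.sum_congr rfl (fun a _ => Finset.sum_congr rfl (fun c _ => ?_))
        simp only [Matrix.trace, Matrix.diag_apply, Finset.mul_sum]
        refine Finset.sum_congr rfl (fun i _ => ?_)
        rw [Matrix.mul_apply, Finset.mul_sum]
        refine Finset.sum_congr rfl (fun j _ => ?_)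
        rw [Matrix.mul_apply, Finset.mul_sum, Finset.mul_sum]
    _ = H.pp x := by
        unfold pp
        refine Finset.sum_congr rfl (fun a _ => Finset.sum_congr rfl (fun c _ => ?_))
        congr 1
        rw [← tr_T (H.S a x * D.τ x * D.T c x * H.N x)]
        congr 1
        simp only [Matrix.transpose_mul, H.NT, D.TT, D.τT, H.ST, Matrix.mul_assoc]

theorem first_pt (x : E) : ∑ i, ∑ j, H.N x j i * H.B x j i = H.bb x := by
  have h : H.bb x = (H.N x * H.B x).trace := rfl
  rw [h]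
  simp only [Matrix.trace, Matrix.diag_apply]
  refine Finset.sum_congr rfl (fun i _ => ?_)
  rw [Matrix.mul_apply]
  refine Finset.sum_congr rfl (fun j _ => ?_)
  rw [H.Nsym x j i]

/-- the middle term before integration by parts -/
def mid (i j : ι) (x : E) : ℝ :=
  H.N x j i * (∑ k, D.X k x * H.S k x j i - ∑ a, ∑ b, D.τ x a b * H.R b a x j i)

theorem step3_pt (x : E) :
    ∑ i, ∑ j, H.AH1 i j x * H.N x j i
      = (H.bb x + ∑ i, ∑ j, H.mid i j x) + H.pp x := by
  rw [← H.first_pt x, ← H.third_pt x, ← Finset.sum_add_distrib, ← Finset.sum_add_distrib]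
  refine Finset.sum_congr rfl (fun i _ => ?_)
  rw [← Finset.sum_add_distrib, ← Finset.sum_add_distrib]
  refine Finset.sum_congr rfl (fun j _ => ?_)
  unfold AH1 mid
  have e1 : ∑ k, ((if k = j then (1:ℝ) else 0) * H.B x k i + D.X k x * H.S j x k i)
      = H.B x j i + ∑ k, D.X k x * H.S k x j i := by
    rw [Finset.sum_add_distrib]
    congr 1
    · simp
    · refine Finset.sum_congr rfl (fun k _ => ?_)
      rw [H.Ssym' j x k i]
  have e2 : ∑ a, ∑ b, (-(D.τ x * D.T j x * D.τ x) a b * H.S a x b i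
        + D.τ x a b * H.R a j x b i)
      = - ∑ a, ∑ b, (D.τ x * D.T j x * D.τ x) a b * H.S a x b i
        + ∑ a, ∑ b, D.τ x a b * H.R b a x j i := by
    rw [← Finset.sum_neg_distrib, ← Finset.sum_add_distrib]
    refine Finset.sum_congr rfl (fun a _ => ?_)
    rw [← Finset.sum_neg_distrib, ← Finset.sum_add_distrib]
    refine Finset.sum_congr rfl (fun b _ => ?_)
    rw [H.Rsym'' a j x b i, H.Rsym' a b x j i]
    ring
  rw [e1, e2]
  ring

theorem mid_pt (x : E) :
    ∑ i, ∑ j, ∑ k, H.N1 k x j i * ∑ l, D.τ x k l * H.S l x j i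
      = H.ss x - 2 * H.pp x := by
  have e0 : ∑ i, ∑ j, ∑ k, H.N1 k x j i * ∑ l, D.τ x k l * H.S l x j i
      = ∑ k, ∑ l, D.τ x k l * (H.N1 k x * H.S l x).trace := by
    calc ∑ i, ∑ j, ∑ k, H.N1 k x j i * ∑ l, D.τ x k l * H.S l x j i
        = ∑ i, ∑ j, ∑ k, ∑ l, D.τ x k l * (H.N1 k x j i * H.S l x i j) := by
          refine Finset.sum_congr rfl (fun i _ => Finset.sum_congr rfl (fun j _ =>
            Finset.sum_congr rfl (fun k _ => ?_)))
          rw [Finset.mul_sum]
          refine Finset.sum_congr rfl (fun l _ => ?_)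
          rw [H.Ssym l x j i]
          ring
      _ = ∑ j, ∑ i, ∑ k, ∑ l, D.τ x k l * (H.N1 k x j i * H.S l x i j) := Finset.sum_comm
      _ = ∑ j, ∑ k, ∑ i, ∑ l, D.τ x k l * (H.N1 k x j i * H.S l x i j) :=
          Finset.sum_congr rfl (fun j _ => Finset.sum_comm)
      _ = ∑ k, ∑ j, ∑ i, ∑ l, D.τ x k l * (H.N1 k x j i * H.S l x i j) := Finset.sum_comm
      _ = ∑ k, ∑ j, ∑ l, ∑ i, D.τ x k l * (H.N1 k x j i * H.S l x i j) :=
          Finset.sum_congr rfl (fun k _ => Finset.sum_congr rfl (fun j _ => Finset.sum_comm))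
      _ = ∑ k, ∑ l, ∑ j, ∑ i, D.τ x k l * (H.N1 k x j i * H.S l x i j) :=
          Finset.sum_congr rfl (fun k _ => Finset.sum_comm)
      _ = ∑ k, ∑ l, D.τ x k l * (H.N1 k x * H.S l x).trace := by
          refine Finset.sum_congr rfl (fun k _ => Finset.sum_congr rfl (fun l _ => ?_))
          simp only [Matrix.trace, Matrix.diag_apply, Finset.mul_sum]
          refine Finset.sum_congr rfl (fun j _ => ?_)
          rw [Matrix.mul_apply, Finset.mul_sum]
  have t1 : ∀ k l, (D.τ x * H.S k x * D.τ x * H.S l x).trace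
      = (H.S k x * D.τ x * H.S l x * D.τ x).trace := by
    intro k l
    have : D.τ x * H.S k x * D.τ x * H.S l x = D.τ x * (H.S k x * D.τ x * H.S l x) := by
      simp only [Matrix.mul_assoc]
    rw [this, Matrix.trace_mul_comm]
  have t2 : ∀ k l, (D.τ x * D.T k x * H.N x * H.S l x).trace
      = (H.S l x * D.τ x * D.T k x * H.N x).trace := by
    intro k l
    rw [Matrix.trace_mul_comm]
    congr 1
    simp only [Matrix.mul_assoc]
  have t3 : ∀ k l, (H.N x * D.T k x * D.τ x * H.S l x).trace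
      = (H.S l x * D.τ x * D.T k x * H.N x).trace := by
    intro k l
    rw [← tr_T (H.S l x * D.τ x * D.T k x * H.N x)]
    congr 1
    simp only [Matrix.transpose_mul, H.NT, D.TT, D.τT, H.ST, Matrix.mul_assoc]
  have key : ∀ k l, D.τ x k l * (H.N1 k x * H.S l x).trace
      = D.τ x k l * (H.S k x * D.τ x * H.S l x * D.τ x).trace
        - 2 * (D.τ x k l * (H.S l x * D.τ x * D.T k x * H.N x).trace) := by
    intro k l
    unfold N1
    rw [Matrix.sub_mul, Matrix.sub_mul, Matrix.trace_sub, Matrix.trace_sub, t1, t2, t3]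
    ring
  rw [e0]
  simp only [key, Finset.sum_sub_distrib, ← Finset.mul_sum]
  unfold ss pp
  congr 2
  rw [Finset.sum_comm]
  refine Finset.sum_congr rfl (fun k _ => Finset.sum_congr rfl (fun l _ => ?_))
  rw [D.τsym x l k]

variable [FiniteDimensional ℝ E] [MeasurableSpace E] [BorelSpace E]
  (μ : Measure E) [μ.IsAddHaarMeasure]

theorem K3 : D.Ex μ H.cc = D.Ex μ H.bb + D.Ex μ H.ss - D.Ex μ H.pp := by
  -- step 1
  have s1 : ∀ i, D.Ex μ (fun x => ∑ j, H.v1 i j x * (D.τ x * H.B x) j i)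
      = D.Ex μ (fun x => H.v i x * H.AH i x) := by
    intro i
    have h := D.Ex_ibp_sum (μ := μ) (F := H.v i) (F' := H.v1 i)
      (u := fun j x => (D.τ x * H.B x) j i)
      (u' := fun j x => (-(D.τ x * D.T j x * D.τ x) * H.B x + D.τ x * H.S j x) j i)
      (H.dv i) (H.cv i) (H.cv1 i)
      (fun j => ((D.dτ j).mul (H.dB j)) j i) (fun j => (D.cτ.mul H.cB) j i)
      (fun j => (((((D.cτ.mul (D.cT j)).mul D.cτ).neg).mul H.cB).add (D.cτ.mul (H.cS j))) j i)
      (Or.inl (H.sv i))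
    rw [h]
    refine D.Ex_congr (fun x => ?_)
    rw [H.step1_pt i x]
  -- step 2
  have s2 : ∀ i, D.Ex μ (fun x => ∑ j, H.AH1 i j x * H.N x j i)
      = D.Ex μ (fun x => H.v i x * H.AH i x) := by
    intro i
    have h := D.Ex_ibp_sum (μ := μ) (F := H.AH i) (F' := H.AH1 i)
      (u := fun j x => H.N x j i) (u' := fun j x => H.N1 j x j i)
      (H.dAH i) (H.cAH i) (H.cAH1 i) (fun j => H.dN j j i) (fun j => H.cN j i)
      (fun j => H.cN1 j j i) (Or.inr (fun j => H.sN j i))
    rw [h]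
    refine D.Ex_congr (fun x => ?_)
    rw [H.v_eq' i x]
    ring
  -- step 4
  have s4 : ∀ i j, D.Ex μ (H.mid i j)
      = D.Ex μ (fun x => ∑ k, H.N1 k x j i * ∑ l, D.τ x k l * H.S l x j i) := by
    intro i j
    exact D.Ex_pair (μ := μ) (F := fun x => H.N x j i) (F' := fun k x => H.N1 k x j i)
      (w1 := fun l x => H.S l x j i) (w2 := fun b a x => H.R b a x j i)
      (fun k => H.dN k j i) (H.cN j i) (fun k => H.cN1 k j i) (fun l a => H.dS l a j i)
      (fun l => H.cS l j i) (fun l a => H.cR l a j i) (Or.inl (H.sN j i))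
  -- continuity and supports
  have c1 : ∀ i, Continuous (fun x => ∑ j, H.v1 i j x * (D.τ x * H.B x) j i) := fun i =>
    continuous_finsetSum _ (fun j _ => (H.cv1 i j).mul ((D.cτ.mul H.cB) j i))
  have p1 : ∀ i, HasCompactSupport (fun x => ∑ j, H.v1 i j x * (D.τ x * H.B x) j i) := fun i =>
    HasCompactSupport.fsum _ (fun j _ => (H.sv1 i j).mul_right)
  have c2 : ∀ i, Continuous (fun x => ∑ j, H.AH1 i j x * H.N x j i) := fun i =>
    continuous_finsetSum _ (fun j _ => (H.cAH1 i j).mul (H.cN j i))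
  have p2 : ∀ i, HasCompactSupport (fun x => ∑ j, H.AH1 i j x * H.N x j i) := fun i =>
    HasCompactSupport.fsum _ (fun j _ => (H.sN j i).mul_left)
  have c3 : ∀ i j, Continuous (H.mid i j) := fun i j =>
    (H.cN j i).mul ((continuous_finsetSum _ (fun k _ => (D.cX k).mul (H.cS k j i))).sub
      (continuous_finsetSum _ (fun a _ => continuous_finsetSum _ (fun b _ =>
        (D.cτ a b).mul (H.cR b a j i)))))
  have p3 : ∀ i j, HasCompactSupport (H.mid i j) := fun i j => (H.sN j i).mul_right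
  have c4 : ∀ i j, Continuous (fun x => ∑ k, H.N1 k x j i * ∑ l, D.τ x k l * H.S l x j i) :=
    fun i j => continuous_finsetSum _ (fun k _ => (H.cN1 k j i).mul
      (continuous_finsetSum _ (fun l _ => (D.cτ k l).mul (H.cS l j i))))
  have p4 : ∀ i j, HasCompactSupport
      (fun x => ∑ k, H.N1 k x j i * ∑ l, D.τ x k l * H.S l x j i) :=
    fun i j => HasCompactSupport.fsum _ (fun k _ => (H.sN1 k j i).mul_right)
  have cM : Continuous (fun x => ∑ i, ∑ j, H.mid i j x) :=
    continuous_finsetSum _ (fun i _ => continuous_finsetSum _ (fun j _ => c3 i j))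
  have pM : HasCompactSupport (fun x => ∑ i, ∑ j, H.mid i j x) :=
    HasCompactSupport.fsum _ (fun i _ => HasCompactSupport.fsum _ (fun j _ => p3 i j))
  -- total
  have t1 : D.Ex μ H.cc = D.Ex μ (fun x => ∑ i, ∑ j, H.AH1 i j x * H.N x j i) := by
    have e : D.Ex μ H.cc = D.Ex μ (fun x => ∑ i, ∑ j, H.v1 i j x * (D.τ x * H.B x) j i) := rfl
    rw [e, D.Ex_sum (F := fun i x => ∑ j, H.v1 i j x * (D.τ x * H.B x) j i) Finset.univ
        (fun i _ => c1 i) (fun i _ => p1 i),
      D.Ex_sum (F := fun i x => ∑ j, H.AH1 i j x * H.N x j i) Finset.univ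
        (fun i _ => c2 i) (fun i _ => p2 i)]
    exact Finset.sum_congr rfl (fun i _ => by rw [s1, s2])
  have t2 : D.Ex μ (fun x => ∑ i, ∑ j, H.mid i j x) = D.Ex μ H.ss - 2 * D.Ex μ H.pp := by
    have e1 : D.Ex μ (fun x => ∑ i, ∑ j, H.mid i j x)
        = D.Ex μ (fun x => ∑ i, ∑ j, ∑ k, H.N1 k x j i * ∑ l, D.τ x k l * H.S l x j i) := by
      rw [D.Ex_sum (F := fun i x => ∑ j, H.mid i j x) Finset.univ
          (fun i _ => continuous_finsetSum _ (fun j _ => c3 i j))
          (fun i _ => HasCompactSupport.fsum _ (fun j _ => p3 i j)),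
        D.Ex_sum (F := fun i x => ∑ j, ∑ k, H.N1 k x j i * ∑ l, D.τ x k l * H.S l x j i)
          Finset.univ
          (fun i _ => continuous_finsetSum _ (fun j _ => c4 i j))
          (fun i _ => HasCompactSupport.fsum _ (fun j _ => p4 i j))]
      refine Finset.sum_congr rfl (fun i _ => ?_)
      rw [D.Ex_sum (F := fun j x => H.mid i j x) Finset.univ
          (fun j _ => c3 i j) (fun j _ => p3 i j),
        D.Ex_sum (F := fun j x => ∑ k, H.N1 k x j i * ∑ l, D.τ x k l * H.S l x j i)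
          Finset.univ (fun j _ => c4 i j) (fun j _ => p4 i j)]
      exact Finset.sum_congr rfl (fun j _ => s4 i j)
    rw [e1, D.Ex_congr H.mid_pt,
      D.Ex_sub H.css H.sss (H.cpp.const_mul 2)
        (HasCompactSupport.mul_left (f := fun _ => (2:ℝ)) H.spp), D.Ex_const_mul]
  rw [t1, D.Ex_congr H.step3_pt,
    D.Ex_add (F := fun x => H.bb x + ∑ i, ∑ j, H.mid i j x) (F' := H.pp)
      (H.cbb.add cM) (H.sbb.add pM) H.cpp H.spp,
    D.Ex_add H.cbb H.sbb cM pM, t2]
  ring

end HJet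

end Pool.Agent.Helper2.MM
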