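import Pool.Agent.Helper2.MM.K1

/-! Row K5: the two pointwise inequalities and the assembly of (K). -/

namespace Pool.Agent.Helper2.MM

open MeasureTheory Matrix

section PSD

variable {ι : Type*} [Fintype ι] [DecidableEq ι]

open scoped MatrixOrder in
theorem exists_factor {τ : Matrix ι ι ℝ} (h : τ.PosSemidef) :
    ∃ P : Matrix ι ι ℝ, τ = P.transpose * P := by
  obtain ⟨P, hP⟩ := CStarAlgebra.nonneg_iff_eq_star_mul_self.mp h.nonneg
  refine ⟨P, ?_⟩
  rw [hP]
  congr 1

theorem trace_four {τ P Y Z : Matrix ι ι ℝ} (hτ : τ = P.transpose * P)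
    (hZ : Z.transpose = Z) :
    (Y * τ * Z * τ).trace
      = ∑ a, ∑ b, (P * Y * P.transpose) a b * (P * Z * P.transpose) a b := by
  have h1 : (Y * τ * Z * τ).trace
      = ((P * Y * P.transpose) * (P * Z * P.transpose)).trace := by
    rw [hτ]
    have e1 : Y * (P.transpose * P) * Z * (P.transpose * P)
        = (Y * P.transpose * P * Z * P.transpose) * P := by
      simp only [Matrix.mul_assoc]
    rw [e1, Matrix.trace_mul_comm]
    congr 1
    simp only [Matrix.mul_assoc]
  rw [h1]
  simp only [Matrix.trace, Matrix.diag_apply]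
  refine Finset.sum_congr rfl (fun a _ => ?_)
  rw [Matrix.mul_apply]
  refine Finset.sum_congr rfl (fun b _ => ?_)
  congr 1
  have h2 : (P * Z * P.transpose).transpose = P * Z * P.transpose := by
    rw [Matrix.transpose_mul, Matrix.transpose_mul, Matrix.transpose_transpose, hZ,
      Matrix.mul_assoc]
  have h3 := congrFun (congrFun h2 a) b
  rw [Matrix.transpose_apply] at h3
  exact h3

theorem trace_psd_one {τ Y : Matrix ι ι ℝ} (h : τ.PosSemidef) (hY : Y.transpose = Y) :
    0 ≤ (Y * τ * Y * τ).trace := by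
  obtain ⟨P, hP⟩ := exists_factor h
  rw [trace_four hP hY]
  exact Finset.sum_nonneg (fun a _ => Finset.sum_nonneg (fun b _ => mul_self_nonneg _))

theorem quad_psd {τ : Matrix ι ι ℝ} (h : τ.PosSemidef) (z : ι → ℝ) :
    0 ≤ ∑ i, ∑ j, τ i j * (z i * z j) := by
  obtain ⟨P, hP⟩ := exists_factor h
  have e : ∑ i, ∑ j, τ i j * (z i * z j) = ∑ k, (∑ i, P k i * z i) ^ 2 := by
    have e1 : ∀ k, (∑ i, P k i * z i) ^ 2 = ∑ i, ∑ j, (P k i * z i) * (P k j * z j) := by
      intro k
      rw [pow_two, Finset.sum_mul_sum]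
    simp only [e1]
    calc ∑ i, ∑ j, τ i j * (z i * z j)
        = ∑ i, ∑ j, ∑ k, (P k i * z i) * (P k j * z j) := by
          refine Finset.sum_congr rfl (fun i _ => Finset.sum_congr rfl (fun j _ => ?_))
          rw [hP, Matrix.mul_apply, Finset.sum_mul]
          refine Finset.sum_congr rfl (fun k _ => ?_)
          rw [Matrix.transpose_apply]
          ring
      _ = ∑ i, ∑ k, ∑ j, (P k i * z i) * (P k j * z j) :=
          Finset.sum_congr rfl (fun i _ => Finset.sum_comm)
      _ = ∑ k, ∑ i, ∑ j, (P k i * z i) * (P k j * z j) := Finset.sum_comm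
  rw [e]
  exact Finset.sum_nonneg (fun k _ => sq_nonneg _)

theorem trace_psd_two {τ : Matrix ι ι ℝ} {Y : ι → Matrix ι ι ℝ} (h : τ.PosSemidef)
    (hY : ∀ i, (Y i).transpose = Y i) :
    0 ≤ ∑ i, ∑ j, τ i j * (Y i * τ * Y j * τ).trace := by
  obtain ⟨P, hP⟩ := exists_factor h
  have e : ∑ i, ∑ j, τ i j * (Y i * τ * Y j * τ).trace
      = ∑ a, ∑ b, ∑ i, ∑ j, τ i j * ((P * Y i * P.transpose) a b * (P * Y j * P.transpose) a b) := by
    have e1 : ∀ i j, τ i j * (Y i * τ * Y j * τ).trace
        = ∑ a, ∑ b, τ i j * ((P * Y i * P.transpose) a b * (P * Y j * P.transpose) a b) := by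
      intro i j
      rw [trace_four hP (hY j), Finset.mul_sum]
      exact Finset.sum_congr rfl (fun a _ => by rw [Finset.mul_sum])
    simp only [e1]
    calc ∑ i, ∑ j, ∑ a, ∑ b, τ i j * ((P * Y i * P.transpose) a b * (P * Y j * P.transpose) a b)
        = ∑ i, ∑ a, ∑ j, ∑ b, τ i j *
            ((P * Y i * P.transpose) a b * (P * Y j * P.transpose) a b) :=
          Finset.sum_congr rfl (fun i _ => Finset.sum_comm)
      _ = ∑ a, ∑ i, ∑ j, ∑ b, τ i j *
            ((P * Y i * P.transpose) a b * (P * Y j * P.transpose) a b) := Finset.sum_comm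
      _ = ∑ a, ∑ i, ∑ b, ∑ j, τ i j *
            ((P * Y i * P.transpose) a b * (P * Y j * P.transpose) a b) :=
          Finset.sum_congr rfl (fun a _ => Finset.sum_congr rfl (fun i _ => Finset.sum_comm))
      _ = ∑ a, ∑ b, ∑ i, ∑ j, τ i j *
            ((P * Y i * P.transpose) a b * (P * Y j * P.transpose) a b) :=
          Finset.sum_congr rfl (fun a _ => Finset.sum_comm)
  rw [e]
  exact Finset.sum_nonneg (fun a _ => Finset.sum_nonneg (fun b _ => quad_psd h _))

end PSD

namespace HJet

variable {E ι : Type*} [NormedAddCommGroup E] [NormedSpace ℝ E] [Fintype ι] [DecidableEq ι]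
  {D : VJet E ι} (H : HJet D)

theorem CT (x : E) : (H.C x).transpose = H.C x := by
  unfold C
  simp only [Matrix.transpose_mul, D.τT, H.BT, Matrix.mul_assoc]

/-- the derivative matrix of `v` -/
def V1 (x : E) : Matrix ι ι ℝ := Matrix.of fun i j => H.v1 i j x

theorem GV1_sym (x : E) : (D.G x * H.V1 x).transpose = D.G x * H.V1 x := by
  ext i j
  rw [Matrix.transpose_apply, Matrix.mul_apply, Matrix.mul_apply]
  exact H.vG x j i

/-- (B) -/
theorem ineq_B (x : E) : 0 ≤ (∑ i, ∑ j, H.v1 i j x * H.v1 j i x) - 2 * H.cc x + H.bb x := by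
  set Y := D.G x * H.V1 x - H.B x with hYdef
  have hY : Y.transpose = Y := by
    rw [hYdef, Matrix.transpose_sub, H.GV1_sym, H.BT]
  have h := trace_psd_one (D.pd x) hY
  have e1 : (Y * D.τ x * Y * D.τ x).trace
      = ((D.τ x * Y) * (D.τ x * Y)).trace := by
    rw [Matrix.trace_mul_comm]
    congr 1
    simp only [Matrix.mul_assoc]
  have e2 : D.τ x * Y = H.V1 x - D.τ x * H.B x := by
    rw [hYdef, Matrix.mul_sub, ← Matrix.mul_assoc, D.tg, Matrix.one_mul]
  have e3 : ((D.τ x * Y) * (D.τ x * Y)).trace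
      = (H.V1 x * H.V1 x).trace - 2 * (H.V1 x * (D.τ x * H.B x)).trace
        + (D.τ x * H.B x * (D.τ x * H.B x)).trace := by
    rw [e2, Matrix.sub_mul, Matrix.mul_sub, Matrix.mul_sub, Matrix.trace_sub, Matrix.trace_sub,
      Matrix.trace_sub, Matrix.trace_mul_comm (D.τ x * H.B x) (H.V1 x)]
    ring
  have e4 : (H.V1 x * H.V1 x).trace = ∑ i, ∑ j, H.v1 i j x * H.v1 j i x := by
    simp only [Matrix.trace, Matrix.diag_apply, Matrix.mul_apply, V1, Matrix.of_apply]
  have e5 : (H.V1 x * (D.τ x * H.B x)).trace = H.cc x := by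
    unfold cc
    simp only [Matrix.trace, Matrix.diag_apply]
    refine Finset.sum_congr rfl (fun i _ => ?_)
    rw [Matrix.mul_apply]
    simp only [V1, Matrix.of_apply]
  have e6 : (D.τ x * H.B x * (D.τ x * H.B x)).trace = H.bb x := by
    unfold bb
    congr 1
    simp only [Matrix.mul_assoc]
  rw [e1, e3, e4, e5, e6] at h
  exact h

omit [DecidableEq ι] in
theorem tr_T (M : Matrix ι ι ℝ) : M.transpose.trace = M.trace := Matrix.trace_transpose M

/-- (E) -/
theorem ineq_E (x : E) : 0 ≤ H.ss x - 2 * H.pp x + (H.q1 x + H.q2 x) / 2 := by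
  set t := D.τ x with ht
  set B := H.B x with hB
  have hN : H.N x = t * B * t := rfl
  have hC : H.C x = t * B * t * B * t := rfl
  have tT : t.transpose = t := D.τT x
  have BT : B.transpose = B := H.BT x
  have ST : ∀ i, (H.S i x).transpose = H.S i x := fun i => H.ST i x
  have TT : ∀ i, (D.T i x).transpose = D.T i x := fun i => D.TT i x
  set Y : ι → Matrix ι ι ℝ := fun i =>
    H.S i x - (1/2 : ℝ) • (D.T i x * t * B + B * t * D.T i x) with hYdef
  have hY : ∀ i, (Y i).transpose = Y i := by
    intro i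
    simp only [hYdef, Matrix.transpose_sub, Matrix.transpose_smul, Matrix.transpose_add,
      Matrix.transpose_mul, tT, BT, ST, TT]
    rw [add_comm, Matrix.mul_assoc, Matrix.mul_assoc]
  have h := trace_psd_two (D.pd x) hY
  -- the elementary traces
  have c1 : ∀ i j, (H.S i x * t * (D.T j x * t * B) * t).trace
      = (H.S i x * t * D.T j x * (t * B * t)).trace := by
    intro i j; congr 1; simp only [Matrix.mul_assoc]
  have c2 : ∀ i j, (H.S i x * t * (B * t * D.T j x) * t).trace
      = (H.S i x * t * D.T j x * (t * B * t)).trace := by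
    intro i j
    rw [← tr_T (H.S i x * t * (B * t * D.T j x) * t)]
    have : (H.S i x * t * (B * t * D.T j x) * t).transpose
        = (t * D.T j x * (t * B * t)) * H.S i x := by
      simp only [Matrix.transpose_mul, tT, BT, ST, TT, Matrix.mul_assoc]
    rw [this, Matrix.trace_mul_comm]
    congr 1; simp only [Matrix.mul_assoc]
  have c3 : ∀ i j, (D.T i x * t * B * t * H.S j x * t).trace
      = (H.S j x * t * D.T i x * (t * B * t)).trace := by
    intro i j
    have : D.T i x * t * B * t * H.S j x * t = (D.T i x * t * B * t) * (H.S j x * t) := by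
      simp only [Matrix.mul_assoc]
    rw [this, Matrix.trace_mul_comm]
    congr 1; simp only [Matrix.mul_assoc]
  have c4 : ∀ i j, (B * t * D.T i x * t * H.S j x * t).trace
      = (H.S j x * t * D.T i x * (t * B * t)).trace := by
    intro i j
    have : B * t * D.T i x * t * H.S j x * t = (B * t * D.T i x * t) * (H.S j x * t) := by
      simp only [Matrix.mul_assoc]
    rw [this, Matrix.trace_mul_comm, ← c2 j i]
    congr 1; simp only [Matrix.mul_assoc]
  have c5 : ∀ i j, (D.T i x * t * B * t * (D.T j x * t * B) * t).trace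
      = (D.T i x * (t * B * t) * D.T j x * (t * B * t)).trace := by
    intro i j; congr 1; simp only [Matrix.mul_assoc]
  have c6 : ∀ i j, (D.T i x * t * B * t * (B * t * D.T j x) * t).trace
      = (D.T j x * t * D.T i x * (t * B * t * B * t)).trace := by
    intro i j
    have : D.T i x * t * B * t * (B * t * D.T j x) * t
        = (D.T i x * t * B * t * B * t) * (D.T j x * t) := by
      simp only [Matrix.mul_assoc]
    rw [this, Matrix.trace_mul_comm]
    congr 1; simp only [Matrix.mul_assoc]
  have c7 : ∀ i j, (B * t * D.T i x * t * (D.T j x * t * B) * t).trace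
      = (D.T i x * t * D.T j x * (t * B * t * B * t)).trace := by
    intro i j
    have : B * t * D.T i x * t * (D.T j x * t * B) * t
        = (B * t) * (D.T i x * t * D.T j x * t * B * t) := by
      simp only [Matrix.mul_assoc]
    rw [this, Matrix.trace_mul_comm]
    congr 1; simp only [Matrix.mul_assoc]
  have c8 : ∀ i j, (B * t * D.T i x * t * (B * t * D.T j x) * t).trace
      = (D.T i x * (t * B * t) * D.T j x * (t * B * t)).trace := by
    intro i j
    have : B * t * D.T i x * t * (B * t * D.T j x) * t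
        = (B * t) * (D.T i x * t * B * t * D.T j x * t) := by
      simp only [Matrix.mul_assoc]
    rw [this, Matrix.trace_mul_comm]
    congr 1; simp only [Matrix.mul_assoc]
  have key : ∀ i j, (Y i * t * Y j * t).trace
      = (H.S i x * t * H.S j x * t).trace
        - (H.S i x * t * D.T j x * (t * B * t)).trace
        - (H.S j x * t * D.T i x * (t * B * t)).trace
        + ((D.T i x * t * D.T j x * (t * B * t * B * t)).trace
          + (D.T j x * t * D.T i x * (t * B * t * B * t)).trace) / 4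
        + (D.T i x * (t * B * t) * D.T j x * (t * B * t)).trace / 2 := by
    intro i j
    have e1 : Y i * t * Y j * t
        = H.S i x * t * H.S j x * t
          - (1/2 : ℝ) • (H.S i x * t * (D.T j x * t * B) * t + H.S i x * t * (B * t * D.T j x) * t)
          - (1/2 : ℝ) • (D.T i x * t * B * t * H.S j x * t + B * t * D.T i x * t * H.S j x * t)
          + (1/4 : ℝ) • (D.T i x * t * B * t * (D.T j x * t * B) * t
            + D.T i x * t * B * t * (B * t * D.T j x) * t
            + B * t * D.T i x * t * (D.T j x * t * B) * t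
            + B * t * D.T i x * t * (B * t * D.T j x) * t) := by
      simp only [hYdef, Matrix.sub_mul, Matrix.mul_sub, Matrix.smul_mul, Matrix.mul_smul,
        Matrix.add_mul, Matrix.mul_add, smul_add, smul_smul, smul_sub]
      norm_num
      abel
    rw [e1]
    simp only [Matrix.trace_add, Matrix.trace_sub, Matrix.trace_smul, smul_eq_mul, c1, c2, c3, c4,
      c5, c6, c7, c8]
    ring
  have hsum : ∑ i, ∑ j, t i j * (Y i * t * Y j * t).trace
      = H.ss x - 2 * H.pp x + (H.q1 x + H.q2 x) / 2 := by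
    have sw : ∀ f : ι → ι → ℝ, ∑ i, ∑ j, t i j * f j i = ∑ i, ∑ j, t i j * f i j := by
      intro f
      rw [Finset.sum_comm]
      refine Finset.sum_congr rfl (fun i _ => Finset.sum_congr rfl (fun j _ => ?_))
      have hs : t j i = t i j := D.τsym x j i
      rw [hs]
    have e : ∀ i j, t i j * (Y i * t * Y j * t).trace
        = t i j * (H.S i x * t * H.S j x * t).trace
          - t i j * (H.S i x * t * D.T j x * (t * B * t)).trace
          - t i j * (H.S j x * t * D.T i x * (t * B * t)).trace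
          + (1/4) * (t i j * (D.T i x * t * D.T j x * (t * B * t * B * t)).trace)
          + (1/4) * (t i j * (D.T j x * t * D.T i x * (t * B * t * B * t)).trace)
          + (1/2) * (t i j * (D.T i x * (t * B * t) * D.T j x * (t * B * t)).trace) := by
      intro i j; rw [key]; ring
    simp only [e, Finset.sum_add_distrib, Finset.sum_sub_distrib, ← Finset.mul_sum]
    rw [sw (fun i j => (H.S i x * t * D.T j x * (t * B * t)).trace),
      sw (fun i j => (D.T i x * t * D.T j x * (t * B * t * B * t)).trace)]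
    unfold ss pp q1 q2
    rw [hN, hC]
    ring
  rw [hsum] at h
  exact h

theorem cbb : Continuous H.bb := CMat.trace (((D.cτ.mul H.cB).mul D.cτ).mul H.cB)
theorem sbb : HasCompactSupport H.bb := SMat.trace (SMat.mul_left H.sB)
theorem css : Continuous H.ss :=
  continuous_finsetSum _ (fun i _ => continuous_finsetSum _ (fun j _ =>
    (D.cτ i j).mul (CMat.trace ((((H.cS i).mul D.cτ).mul (H.cS j)).mul D.cτ))))
theorem sss : HasCompactSupport H.ss :=
  HasCompactSupport.fsum _ (fun i _ => HasCompactSupport.fsum _ (fun j _ =>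
    HasCompactSupport.mul_left (SMat.trace (((H.sS i).mul_right).mul_right.mul_right))))
theorem cpp : Continuous H.pp :=
  continuous_finsetSum _ (fun i _ => continuous_finsetSum _ (fun j _ =>
    (D.cτ i j).mul (CMat.trace ((((H.cS i).mul D.cτ).mul (D.cT j)).mul H.cN))))
theorem spp : HasCompactSupport H.pp :=
  HasCompactSupport.fsum _ (fun i _ => HasCompactSupport.fsum _ (fun j _ =>
    HasCompactSupport.mul_left (SMat.trace (SMat.mul_left H.sN))))
theorem cq1 : Continuous H.q1 :=
  continuous_finsetSum _ (fun i _ => continuous_finsetSum _ (fun j _ =>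
    (D.cτ i j).mul (CMat.trace ((((D.cT i).mul D.cτ).mul (D.cT j)).mul H.cC))))
theorem sq1 : HasCompactSupport H.q1 :=
  HasCompactSupport.fsum _ (fun i _ => HasCompactSupport.fsum _ (fun j _ =>
    HasCompactSupport.mul_left (SMat.trace (SMat.mul_left H.sC))))
theorem cq2 : Continuous H.q2 :=
  continuous_finsetSum _ (fun i _ => continuous_finsetSum _ (fun j _ =>
    (D.cτ i j).mul (CMat.trace ((((D.cT i).mul H.cN).mul (D.cT j)).mul H.cN))))
theorem sq2 : HasCompactSupport H.q2 :=
  HasCompactSupport.fsum _ (fun i _ => HasCompactSupport.fsum _ (fun j _ =>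
    HasCompactSupport.mul_left (SMat.trace (SMat.mul_left H.sN))))
theorem cww : Continuous H.ww := CMat.trace (D.cW2.mul H.cC)
theorem sww : HasCompactSupport H.ww := SMat.trace (SMat.mul_left H.sC)
theorem ccc : Continuous H.cc :=
  continuous_finsetSum _ (fun i _ => continuous_finsetSum _ (fun j _ =>
    (H.cv1 i j).mul ((D.cτ.mul H.cB) j i)))
theorem scc : HasCompactSupport H.cc :=
  HasCompactSupport.fsum _ (fun i _ => HasCompactSupport.fsum _ (fun j _ =>
    (H.sv1 i j).mul_right))

variable [FiniteDimensional ℝ E] [MeasurableSpace E] [BorelSpace E]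
  (μ : Measure E) [μ.IsAddHaarMeasure]

/-- The inequality (K), given the two identities (C) and (D). -/
theorem K_of
    (K3 : D.Ex μ H.cc = D.Ex μ H.bb + D.Ex μ H.ss - D.Ex μ H.pp)
    (K4 : D.Ex μ H.ww = D.Ex μ H.bb + 2 * D.Ex μ H.pp - D.Ex μ H.q1 - D.Ex μ H.q2) :
    D.Ex μ (fun x => ∑ i, ∑ j, D.W2 x i j * H.v i x * H.v j x) + D.Ex μ H.ww
      ≤ D.Ex μ (fun x => H.g x ^ 2) := by
  have c1 : Continuous (fun x => ∑ i, ∑ j, D.W2 x i j * H.v i x * H.v j x) :=
    continuous_finsetSum _ (fun i _ => continuous_finsetSum _ (fun j _ =>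
      ((D.cW2 i j).mul (H.cv i)).mul (H.cv j)))
  have s1 : HasCompactSupport (fun x => ∑ i, ∑ j, D.W2 x i j * H.v i x * H.v j x) :=
    HasCompactSupport.fsum _ (fun i _ => HasCompactSupport.fsum _ (fun j _ =>
      HasCompactSupport.mul_left (f := fun x => D.W2 x i j * H.v i x) (H.sv j)))
  have c2 : Continuous (fun x => ∑ i, ∑ j, H.v1 i j x * H.v1 j i x) :=
    continuous_finsetSum _ (fun i _ => continuous_finsetSum _ (fun j _ =>
      (H.cv1 i j).mul (H.cv1 j i)))
  have s2 : HasCompactSupport (fun x => ∑ i, ∑ j, H.v1 i j x * H.v1 j i x) :=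
    HasCompactSupport.fsum _ (fun i _ => HasCompactSupport.fsum _ (fun j _ =>
      (H.sv1 j i).mul_left))
  rw [H.K1 μ, D.Ex_add c1 s1 c2 s2]
  -- (B)
  have hB : 0 ≤ D.Ex μ (fun x => ∑ i, ∑ j, H.v1 i j x * H.v1 j i x)
      - 2 * D.Ex μ H.cc + D.Ex μ H.bb := by
    have h0 : 0 ≤ D.Ex μ (fun x => ((∑ i, ∑ j, H.v1 i j x * H.v1 j i x) - 2 * H.cc x) + H.bb x) :=
      D.Ex_nonneg H.ineq_B
    rw [D.Ex_add (F := fun x => (∑ i, ∑ j, H.v1 i j x * H.v1 j i x) - 2 * H.cc x)
        (c2.sub (H.ccc.const_mul 2)) (s2.sub (HasCompactSupport.mul_left (f := fun _ => (2:ℝ))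
          H.scc)) H.cbb H.sbb,
      D.Ex_sub c2 s2 (H.ccc.const_mul 2) (HasCompactSupport.mul_left (f := fun _ => (2:ℝ))
          H.scc), D.Ex_const_mul] at h0
    exact h0
  -- (E)
  have hE : 0 ≤ D.Ex μ H.ss - 2 * D.Ex μ H.pp + (1/2) * (D.Ex μ H.q1 + D.Ex μ H.q2) := by
    have h0 : 0 ≤ D.Ex μ (fun x => (H.ss x - 2 * H.pp x) + (1/2) * (H.q1 x + H.q2 x)) :=
      D.Ex_nonneg (fun x => by have := H.ineq_E x; linarith)
    rw [D.Ex_add (F := fun x => H.ss x - 2 * H.pp x) (F' := fun x => (1/2) * (H.q1 x + H.q2 x))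
        (H.css.sub (H.cpp.const_mul 2))
        (H.sss.sub (HasCompactSupport.mul_left (f := fun _ => (2:ℝ)) H.spp))
        ((H.cq1.add H.cq2).const_mul (1/2))
        (HasCompactSupport.mul_left (f := fun _ => (1/2:ℝ)) (H.sq1.add H.sq2)),
      D.Ex_sub H.css H.sss (H.cpp.const_mul 2)
        (HasCompactSupport.mul_left (f := fun _ => (2:ℝ)) H.spp),
      D.Ex_const_mul, D.Ex_const_mul, D.Ex_add H.cq1 H.sq1 H.cq2 H.sq2] at h0
    exact h0
  linarith

end HJet

end Pool.Agent.Helper2.MM
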