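import Pool.Agent.Helper2.MM.K3

/-! Row K6, generic part: construction of an `HJet` from a function `h` and `f = (A - 1) h`,
`v = τ grad f`, and `g = A f`. -/

namespace Pool.Agent.Helper2.MM

open MeasureTheory Matrix

section

variable {E ι : Type*} [NormedAddCommGroup E] [NormedSpace ℝ E] [Fintype ι] [DecidableEq ι]

/-- Raw data for `HJet`. -/
structure HRaw (D : VJet E ι) where
  h : E → ℝ
  h1 : ι → E → ℝ
  B : E → Matrix ι ι ℝ
  S : ι → E → Matrix ι ι ℝ
  R : ι → ι → E → Matrix ι ι ℝ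
  f : E → ℝ
  f1 : ι → E → ℝ
  f2 : ι → ι → E → ℝ
  v : ι → E → ℝ
  v1 : ι → ι → E → ℝ
  v2 : ι → ι → ι → E → ℝ
  dh : ∀ i, PD (D.e i) h (h1 i)
  dh1 : ∀ a i, PD (D.e i) (h1 a) (fun x => B x a i)
  dB : ∀ i, PDM (D.e i) B (S i)
  dS : ∀ i j, PDM (D.e j) (S i) (R i j)
  f_eq : ∀ x, f x = ∑ a, D.X a x * h1 a x - ∑ a, ∑ b, D.τ x a b * B x a b - h x
  df : ∀ i, PD (D.e i) f (f1 i)
  df1 : ∀ i j, PD (D.e j) (f1 i) (f2 i j)
  f2sym : ∀ i j x, f2 i j x = f2 j i x
  v_def : ∀ i x, v i x = ∑ j, D.τ x i j * f1 j x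
  dv : ∀ i j, PD (D.e j) (v i) (v1 i j)
  dv1 : ∀ i j k, PD (D.e k) (v1 i j) (v2 i j k)
  v2sym : ∀ i j k x, v2 i j k x = v2 i k j x
  cB : CMat B
  cS : ∀ i, CMat (S i)
  cR : ∀ i j, CMat (R i j)
  cv2 : ∀ i j k, Continuous (v2 i j k)
  cv1 : ∀ i j, Continuous (v1 i j)
  cv : ∀ i, Continuous (v i)
  sB : SMat B
  Bsym : ∀ x a b, B x a b = B x b a
  Ssym : ∀ i x a b, S i x a b = S i x b a
  Ssym' : ∀ i x a b, S i x a b = S a x i b
  Rsym : ∀ i j x a b, R i j x a b = R i j x b a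
  Rsym' : ∀ i j x a b, R i j x a b = R j i x a b
  Rsym'' : ∀ i j x a b, R i j x a b = R i a x j b

namespace HRaw

variable {D : VJet E ι} (Q : HRaw D)

theorem f1_eq (k : ι) (x : E) : Q.f1 k x = ∑ a, D.X a x * Q.B x a k
    + ∑ a, ∑ b, (D.τ x * D.T k x * D.τ x) a b * Q.B x a b
    - ∑ a, ∑ b, D.τ x a b * Q.S k x a b := by
  have h1 : PD (D.e k) Q.f (fun x => ∑ a, ((if a = k then 1 else 0) * Q.h1 a x
      + D.X a x * Q.B x a k)
      - ∑ a, ∑ b, (-(D.τ x * D.T k x * D.τ x) a b * Q.B x a b + D.τ x a b * Q.S k x a b)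
      - Q.h1 k x) := by
    refine (((PD.sum _ (fun a _ => (D.dX a k).mul (Q.dh1 a k))).sub
      (PD.sum _ (fun a _ => PD.sum _ (fun b _ => (D.dτ k a b).mul (Q.dB k a b))))).sub
      (Q.dh k)).congr (fun x => Q.f_eq x) (fun x => rfl)
  have h2 := congrFun ((Q.df k).unique h1) x
  rw [h2]
  have e1 : ∑ a, ((if a = k then (1:ℝ) else 0) * Q.h1 a x + D.X a x * Q.B x a k)
      = Q.h1 k x + ∑ a, D.X a x * Q.B x a k := by
    rw [Finset.sum_add_distrib]
    congr 1
    simp
  have e2 : ∑ a, ∑ b, (-(D.τ x * D.T k x * D.τ x) a b * Q.B x a b + D.τ x a b * Q.S k x a b)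
      = - ∑ a, ∑ b, (D.τ x * D.T k x * D.τ x) a b * Q.B x a b
        + ∑ a, ∑ b, D.τ x a b * Q.S k x a b := by
    rw [← Finset.sum_neg_distrib, ← Finset.sum_add_distrib]
    refine Finset.sum_congr rfl (fun a _ => ?_)
    rw [← Finset.sum_neg_distrib, ← Finset.sum_add_distrib]
    refine Finset.sum_congr rfl (fun b _ => ?_)
    ring
  rw [e1, e2]
  ring

/-- `div* N = τ grad f` -/
theorem v_eq (j : ι) (x : E) : Q.v j x = ∑ i, (D.W1 i x * (D.τ x * Q.B x * D.τ x) i j
    - (D.τ x * Q.S i x * D.τ x - D.τ x * D.T i x * (D.τ x * Q.B x * D.τ x)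
      - (D.τ x * Q.B x * D.τ x) * D.T i x * D.τ x) i j) := by
  set t := D.τ x with ht
  have tsym : ∀ a b, t a b = t b a := D.τsym x
  -- left side
  have L : Q.v j x = ∑ k, t j k * (∑ a, D.X a x * Q.B x a k)
      + ∑ k, t j k * (∑ a, ∑ b, (t * D.T k x * t) a b * Q.B x a b)
      - ∑ k, t j k * (∑ a, ∑ b, t a b * Q.S k x a b) := by
    rw [Q.v_def, ← Finset.sum_add_distrib, ← Finset.sum_sub_distrib]
    refine Finset.sum_congr rfl (fun k _ => ?_)
    rw [Q.f1_eq]; ring
  -- right side, first part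
  have R1 : ∑ i, (D.W1 i x * (t * Q.B x * t) i j + (t * D.T i x * (t * Q.B x * t)) i j)
      = ∑ k, t j k * (∑ a, D.X a x * Q.B x a k) := by
    have e1 : ∀ i, D.W1 i x * (t * Q.B x * t) i j + (t * D.T i x * (t * Q.B x * t)) i j
        = ∑ a, (D.W1 i x * t i a + (t * D.T i x * t) i a) * (Q.B x * t) a j := by
      intro i
      have m1 : (t * Q.B x * t) i j = ∑ a, t i a * (Q.B x * t) a j := by
        rw [Matrix.mul_assoc, Matrix.mul_apply]
      have m2 : (t * D.T i x * (t * Q.B x * t)) i j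
          = ∑ a, (t * D.T i x * t) i a * (Q.B x * t) a j := by
        have : t * D.T i x * (t * Q.B x * t) = (t * D.T i x * t) * (Q.B x * t) := by
          simp only [Matrix.mul_assoc]
        rw [this, Matrix.mul_apply]
      rw [m1, m2, Finset.mul_sum, ← Finset.sum_add_distrib]
      refine Finset.sum_congr rfl (fun a _ => ?_)
      ring
    simp only [e1]
    rw [Finset.sum_comm]
    have e2 : ∀ a, ∑ i, (D.W1 i x * t i a + (t * D.T i x * t) i a) * (Q.B x * t) a j
        = D.X a x * (Q.B x * t) a j := by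
      intro a
      rw [← Finset.sum_mul, D.div_τ]
    simp only [e2]
    have e3 : ∀ a, D.X a x * (Q.B x * t) a j = ∑ k, t j k * (D.X a x * Q.B x a k) := by
      intro a
      rw [Matrix.mul_apply, Finset.mul_sum]
      refine Finset.sum_congr rfl (fun k _ => ?_)
      rw [tsym k j]; ring
    simp only [e3]
    rw [Finset.sum_comm]
    refine Finset.sum_congr rfl (fun k _ => ?_)
    rw [Finset.mul_sum]
  -- second part
  have R2 : ∑ i, (t * Q.S i x * t) i j = ∑ k, t j k * (∑ a, ∑ b, t a b * Q.S k x a b) := by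
    calc ∑ i, (t * Q.S i x * t) i j = ∑ i, ∑ k, ∑ a, t j k * (t i a * Q.S k x i a) := by
          refine Finset.sum_congr rfl (fun i _ => ?_)
          rw [Matrix.mul_apply]
          refine Finset.sum_congr rfl (fun k _ => ?_)
          rw [Matrix.mul_apply, Finset.sum_mul]
          refine Finset.sum_congr rfl (fun a _ => ?_)
          rw [tsym k j, Q.Ssym i x a k, Q.Ssym' i x k a]
          ring
      _ = ∑ k, ∑ i, ∑ a, t j k * (t i a * Q.S k x i a) := Finset.sum_comm
      _ = _ := by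
          refine Finset.sum_congr rfl (fun k _ => ?_)
          rw [Finset.mul_sum]
          refine Finset.sum_congr rfl (fun i _ => ?_)
          rw [Finset.mul_sum]
  -- third part
  have R3 : ∑ i, ((t * Q.B x * t) * D.T i x * t) i j
      = ∑ k, t j k * (∑ a, ∑ b, (t * D.T k x * t) a b * Q.B x a b) := by
    have NT : ∀ a b, (t * Q.B x * t) a b = (t * Q.B x * t) b a := by
      intro a b
      have h : (t * Q.B x * t).transpose = t * Q.B x * t := by
        have BT : (Q.B x).transpose = Q.B x := by ext p q; exact Q.Bsym x q p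
        have tT : t.transpose = t := D.τT x
        simp only [Matrix.transpose_mul, tT, BT, Matrix.mul_assoc]
      have := congrFun (congrFun h b) a
      simpa using this
    have e1 : ∀ k, ∑ a, ∑ b, (t * D.T k x * t) a b * Q.B x a b
        = ∑ a, ∑ b, D.T k x a b * (t * Q.B x * t) a b := by
      intro k
      have f1 : ∑ a, ∑ b, (t * D.T k x * t) a b * Q.B x a b
          = ((t * D.T k x * t) * Q.B x).trace := by
        simp only [Matrix.trace, Matrix.diag_apply]
        refine Finset.sum_congr rfl (fun a _ => ?_)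
        rw [Matrix.mul_apply]
        refine Finset.sum_congr rfl (fun b _ => ?_)
        rw [Q.Bsym x a b]
      have f2 : ∑ a, ∑ b, D.T k x a b * (t * Q.B x * t) a b
          = (D.T k x * (t * Q.B x * t)).trace := by
        simp only [Matrix.trace, Matrix.diag_apply]
        refine Finset.sum_congr rfl (fun a _ => ?_)
        rw [Matrix.mul_apply]
        refine Finset.sum_congr rfl (fun b _ => ?_)
        rw [NT a b]
      rw [f1, f2]
      have : t * D.T k x * t * Q.B x = t * (D.T k x * t * Q.B x) := by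
        simp only [Matrix.mul_assoc]
      rw [this, Matrix.trace_mul_comm]
      congr 1
      simp only [Matrix.mul_assoc]
    simp only [e1]
    calc ∑ i, ((t * Q.B x * t) * D.T i x * t) i j
        = ∑ i, ∑ k, ∑ a, t j k * (D.T k x i a * (t * Q.B x * t) i a) := by
          refine Finset.sum_congr rfl (fun i _ => ?_)
          rw [Matrix.mul_apply]
          refine Finset.sum_congr rfl (fun k _ => ?_)
          rw [Matrix.mul_apply, Finset.sum_mul]
          refine Finset.sum_congr rfl (fun a _ => ?_)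
          rw [tsym k j, D.Tsym i x a k, D.Tsym' i x k a]
          ring
      _ = ∑ k, ∑ i, ∑ a, t j k * (D.T k x i a * (t * Q.B x * t) i a) := Finset.sum_comm
      _ = _ := by
          refine Finset.sum_congr rfl (fun k _ => ?_)
          rw [Finset.mul_sum]
          refine Finset.sum_congr rfl (fun i _ => ?_)
          rw [Finset.mul_sum]
  rw [L, ← R1, ← R2, ← R3, ← Finset.sum_add_distrib, ← Finset.sum_sub_distrib]
  refine Finset.sum_congr rfl (fun i _ => ?_)
  simp only [Matrix.sub_apply]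
  ring

theorem Gv (i : ι) (x : E) : ∑ k, D.G x i k * Q.v k x = Q.f1 i x := by
  have e : ∀ k, D.G x i k * Q.v k x = ∑ j, D.G x i k * D.τ x k j * Q.f1 j x := by
    intro k
    rw [Q.v_def, Finset.mul_sum]
    exact Finset.sum_congr rfl (fun j _ => by ring)
  simp only [e]
  rw [Finset.sum_comm]
  have e2 : ∀ j, ∑ k, D.G x i k * D.τ x k j * Q.f1 j x = (1 : Matrix ι ι ℝ) i j * Q.f1 j x := by
    intro j
    rw [← D.gt x, Matrix.mul_apply, Finset.sum_mul]
  simp only [e2, Matrix.one_apply]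
  simp

theorem vG_aux (i j : ι) (x : E) :
    ∑ k, D.G x i k * Q.v1 k j x = Q.f2 i j x - ∑ k, D.T j x i k * Q.v k x := by
  have h1 : PD (D.e j) (Q.f1 i)
      (fun x => ∑ k, (D.T j x i k * Q.v k x + D.G x i k * Q.v1 k j x)) :=
    (PD.sum _ (fun k _ => (D.dG j i k).mul (Q.dv k j))).congr
      (fun x => (Q.Gv i x).symm) (fun x => rfl)
  have h2 := congrFun ((Q.df1 i j).unique h1) x
  rw [h2, Finset.sum_add_distrib]
  ring

theorem vG (x : E) (i j : ι) :
    ∑ k, D.G x i k * Q.v1 k j x = ∑ k, D.G x j k * Q.v1 k i x := by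
  rw [Q.vG_aux, Q.vG_aux, Q.f2sym i j x]
  congr 1
  refine Finset.sum_congr rfl (fun k _ => ?_)
  rw [D.Tsym' j x i k]

/-- the `HJet` of the raw data -/
def toH : HJet D where
  B := Q.B
  S := Q.S
  R := Q.R
  v := Q.v
  v1 := Q.v1
  v2 := Q.v2
  dB := Q.dB
  dS := Q.dS
  dv := Q.dv
  dv1 := Q.dv1
  cB := Q.cB
  cS := Q.cS
  cR := Q.cR
  cv2 := Q.cv2
  cv1 := Q.cv1
  cv := Q.cv
  sB := Q.sB
  Bsym := Q.Bsym
  Ssym := Q.Ssym
  Ssym' := Q.Ssym'
  Rsym := Q.Rsym
  Rsym' := Q.Rsym'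
  Rsym'' := Q.Rsym''
  v_eq := Q.v_eq
  v2sym := Q.v2sym
  vG := Q.vG

/-- `g = div* v = A f` -/
theorem g_eq (x : E) : Q.toH.g x
    = ∑ j, D.X j x * Q.f1 j x - ∑ i, ∑ j, D.τ x i j * Q.f2 j i x := by
  have h1 : ∀ i, Q.v1 i i x = ∑ j, (-(D.τ x * D.T i x * D.τ x) i j * Q.f1 j x
      + D.τ x i j * Q.f2 j i x) := by
    intro i
    have h : PD (D.e i) (Q.v i) (fun x => ∑ j, (-(D.τ x * D.T i x * D.τ x) i j * Q.f1 j x
      + D.τ x i j * Q.f2 j i x)) :=
      (PD.sum _ (fun j _ => (D.dτ i i j).mul (Q.df1 j i))).congr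
        (fun x => Q.v_def i x) (fun x => rfl)
    exact congrFun ((Q.dv i i).unique h) x
  have e1 : ∀ i, D.W1 i x * Q.v i x - Q.v1 i i x
      = ∑ j, (D.W1 i x * D.τ x i j + (D.τ x * D.T i x * D.τ x) i j) * Q.f1 j x
        - ∑ j, D.τ x i j * Q.f2 j i x := by
    intro i
    rw [h1, Q.v_def, Finset.mul_sum, ← Finset.sum_sub_distrib, ← Finset.sum_sub_distrib]
    exact Finset.sum_congr rfl (fun j _ => by ring)
  have e0 : Q.toH.g x = ∑ i, (D.W1 i x * Q.v i x - Q.v1 i i x) := rfl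
  rw [e0]
  simp only [e1, Finset.sum_sub_distrib]
  congr 1
  rw [Finset.sum_comm]
  refine Finset.sum_congr rfl (fun j _ => ?_)
  rw [← Finset.sum_mul, D.div_τ]

end HRaw

end

end Pool.Agent.Helper2.MM
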