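import Mathlib

/-! Partial derivatives along fixed directions, and the weighted integration by parts. -/

namespace Pool.Agent.Helper2.MM

open MeasureTheory

section PDsec

variable {E : Type*} [NormedAddCommGroup E] [NormedSpace ℝ E]

/-- `PD v f f'`: the function `f'` is the derivative of `f` in the direction `v`, everywhere. -/
def PD (v : E) (f f' : E → ℝ) : Prop := ∀ x, HasLineDerivAt ℝ f (f' x) x v

variable {v : E} {f f' g g' : E → ℝ}

theorem PD.hd (h : PD v f f') (x : E) : HasDerivAt (fun t : ℝ => f (x + t • v)) (f' x) 0 := h x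

theorem PD.add (hf : PD v f f') (hg : PD v g g') :
    PD v (fun x => f x + g x) (fun x => f' x + g' x) := fun x => (hf.hd x).add (hg.hd x)

theorem PD.sub (hf : PD v f f') (hg : PD v g g') :
    PD v (fun x => f x - g x) (fun x => f' x - g' x) := fun x => (hf.hd x).sub (hg.hd x)

theorem PD.neg (hf : PD v f f') : PD v (fun x => - f x) (fun x => - f' x) :=
  fun x => (hf.hd x).neg

theorem PD.mul (hf : PD v f f') (hg : PD v g g') :
    PD v (fun x => f x * g x) (fun x => f' x * g x + f x * g' x) := by
  intro x
  have h := (hf.hd x).mul (hg.hd x)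
  simp only [zero_smul, add_zero] at h
  exact h

theorem PD.const (v : E) (c : ℝ) : PD v (fun _ => c) (fun _ => 0) :=
  fun _ => hasDerivAt_const _ _

theorem PD.const_mul (c : ℝ) (hf : PD v f f') : PD v (fun x => c * f x) (fun x => c * f' x) :=
  fun x => (hf.hd x).const_mul c

theorem PD.congr (hf : PD v f f') (h1 : ∀ x, g x = f x) (h2 : ∀ x, g' x = f' x) : PD v g g' := by
  have e1 : g = f := funext h1
  have e2 : g' = f' := funext h2
  rw [e1, e2]; exact hf

theorem PD.congr' (hf : PD v f f') (h2 : ∀ x, g' x = f' x) : PD v f g' :=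
  hf.congr (fun _ => rfl) h2

theorem PD.sum {κ : Type*} (s : Finset κ) {F F' : κ → E → ℝ} (h : ∀ k ∈ s, PD v (F k) (F' k)) :
    PD v (fun x => ∑ k ∈ s, F k x) (fun x => ∑ k ∈ s, F' k x) := by
  intro x
  exact HasDerivAt.fun_sum (fun k hk => (h k hk).hd x)

theorem PD.unique (h1 : PD v f f') (h2 : PD v f g') : f' = g' :=
  funext fun x => (h1.hd x).unique (h2.hd x)

theorem PD.of_hasFDerivAt {L : E → (E →L[ℝ] ℝ)} (h : ∀ x, HasFDerivAt f (L x) x) (v : E) :
    PD v f (fun x => L x v) := fun x => (h x).hasLineDerivAt v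

theorem PD.of_differentiable (h : Differentiable ℝ f) (v : E) :
    PD v f (fun x => fderiv ℝ f x v) := PD.of_hasFDerivAt (fun x => (h x).hasFDerivAt) v

theorem PD.exp_neg (hf : PD v f f') :
    PD v (fun x => Real.exp (- f x)) (fun x => - f' x * Real.exp (- f x)) := by
  intro x
  have h := (hf.neg.hd x).exp
  simp only [zero_smul, add_zero] at h
  have h2 : Real.exp (- f x) * - f' x = - f' x * Real.exp (- f x) := by ring
  rw [h2] at h
  exact h

theorem PD.tsupport_subset (hf : PD v f f') : Function.support f' ⊆ tsupport f := by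
  intro x hx
  by_contra hn
  apply hx
  have h0 : f =ᶠ[nhds x] (fun _ => (0:ℝ)) := by
    have := notMem_tsupport_iff_eventuallyEq.1 hn
    exact this
  have h1 : HasLineDerivAt ℝ (fun _ : E => (0:ℝ)) (f' x) x v :=
    (h0.hasLineDerivAt_iff).1 (hf x)
  have h2 : HasLineDerivAt ℝ (fun _ : E => (0:ℝ)) 0 x v := hasDerivAt_const _ _
  exact h1.unique h2

theorem PD.hasCompactSupport (hf : PD v f f') (hs : HasCompactSupport f) : HasCompactSupport f' :=
  hs.mono' hf.tsupport_subset

/-! matrix valued functions, entrywise -/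

variable {ι κ ρ : Type*}

/-- entrywise derivative of a matrix valued function in the direction `v` -/
def PDM (v : E) (M M' : E → Matrix ι κ ℝ) : Prop :=
  ∀ a b, PD v (fun x => M x a b) (fun x => M' x a b)

variable {M M' : E → Matrix ι κ ℝ}

theorem PDM.add {N N' : E → Matrix ι κ ℝ} (hM : PDM v M M') (hN : PDM v N N') :
    PDM v (fun x => M x + N x) (fun x => M' x + N' x) := fun a b => (hM a b).add (hN a b)

theorem PDM.sub {N N' : E → Matrix ι κ ℝ} (hM : PDM v M M') (hN : PDM v N N') :
    PDM v (fun x => M x - N x) (fun x => M' x - N' x) := fun a b => (hM a b).sub (hN a b)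

theorem PDM.neg (hM : PDM v M M') : PDM v (fun x => - M x) (fun x => - M' x) :=
  fun a b => (hM a b).neg

theorem PDM.mul [Fintype κ] {N N' : E → Matrix κ ρ ℝ} (hM : PDM v M M') (hN : PDM v N N') :
    PDM v (fun x => M x * N x) (fun x => M' x * N x + M x * N' x) := by
  intro a b
  refine (PD.sum Finset.univ (fun k _ => (hM a k).mul (hN k b))).congr (fun x => ?_) (fun x => ?_)
  · simp only [Matrix.mul_apply]
  · simp only [Matrix.mul_apply, Matrix.add_apply, Finset.sum_add_distrib]

theorem PDM.transpose (hM : PDM v M M') :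
    PDM v (fun x => (M x).transpose) (fun x => (M' x).transpose) := fun a b => hM b a

theorem PDM.trace [Fintype ι] {M M' : E → Matrix ι ι ℝ} (hM : PDM v M M') :
    PD v (fun x => (M x).trace) (fun x => (M' x).trace) := by
  refine (PD.sum Finset.univ (fun k _ => hM k k)).congr (fun x => ?_) (fun x => ?_)
  · simp only [Matrix.trace, Matrix.diag_apply]
  · simp only [Matrix.trace, Matrix.diag_apply]

theorem PDM.congr {N N' : E → Matrix ι κ ℝ} (hM : PDM v M M') (h1 : ∀ x, N x = M x)
    (h2 : ∀ x, N' x = M' x) : PDM v N N' := by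
  have e1 : N = M := funext h1
  have e2 : N' = M' := funext h2
  rw [e1, e2]; exact hM

theorem PDM.congr' {N' : E → Matrix ι κ ℝ} (hM : PDM v M M')
    (h2 : ∀ x, N' x = M' x) : PDM v M N' := hM.congr (fun _ => rfl) h2

/-- derivative of the inverse matrix, when the inverse `τ` is known to be differentiable
in the direction `v` -/
theorem PDM.inv_of [Fintype ι] [DecidableEq ι] {G G' τ τ' : E → Matrix ι ι ℝ}
    (hG : PDM v G G') (hτ : PDM v τ τ') (h1 : ∀ x, G x * τ x = 1) (h2 : ∀ x, τ x * G x = 1) :
    PDM v τ (fun x => - (τ x * G' x * τ x)) := by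
  refine hτ.congr' (fun x => ?_)
  have hz : ∀ x, G' x * τ x + G x * τ' x = 0 := by
    intro x
    have hp := hG.mul hτ
    have hc : PDM v (fun x => G x * τ x) (fun _ => (0 : Matrix ι ι ℝ)) := by
      intro a b
      refine (PD.const v ((1 : Matrix ι ι ℝ) a b)).congr (fun y => ?_) (fun y => ?_)
      · show (G y * τ y) a b = _
        rw [h1 y]
      · rfl
    ext a b
    exact congrFun ((hp a b).unique (hc a b)) x
  have hz' := hz x
  have h3 : G x * τ' x = - (G' x * τ x) := by
    rw [eq_neg_iff_add_eq_zero, add_comm]; exact hz'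
  calc - (τ x * G' x * τ x) = τ x * (- (G' x * τ x)) := by
        rw [Matrix.mul_neg, Matrix.mul_assoc]
    _ = τ x * (G x * τ' x) := by rw [h3]
    _ = τ' x := by rw [← Matrix.mul_assoc, h2 x, Matrix.one_mul]

end PDsec

section IBP

variable {E : Type*} [NormedAddCommGroup E] [NormedSpace ℝ E] [FiniteDimensional ℝ E]
  [MeasurableSpace E] [BorelSpace E] {μ : Measure E} [μ.IsAddHaarMeasure]
  {v : E} {W W1 : E → ℝ}

omit [NormedSpace ℝ E] [FiniteDimensional ℝ E] in
theorem integrable_mul_exp {F : E → ℝ} (cW : Continuous W) (cF : Continuous F)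
    (hs : HasCompactSupport F) : Integrable (fun x => F x * Real.exp (- W x)) μ := by
  apply Continuous.integrable_of_hasCompactSupport
  · exact cF.mul (Real.continuous_exp.comp cW.neg)
  · exact hs.mul_right

/-- weighted integration by parts, divergence form -/
theorem ibp_div {F F' : E → ℝ} (hW : PD v W W1) (cW : Continuous W) (cW1 : Continuous W1)
    (hF : PD v F F') (cF : Continuous F) (cF' : Continuous F') (hs : HasCompactSupport F) :
    ∫ x, (F' x - W1 x * F x) * Real.exp (- W x) ∂μ = 0 := by
  have hs' : HasCompactSupport F' := hF.hasCompactSupport hs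
  have h := integral_bilinear_hasLineDerivAt_right_eq_neg_left_of_integrable (μ := μ)
    (f := F) (f' := F') (g := fun x => Real.exp (- W x))
    (g' := fun x => - W1 x * Real.exp (- W x)) (v := v) (B := ContinuousLinearMap.mul ℝ ℝ)
    (by simpa using integrable_mul_exp (μ := μ) cW cF' hs')
    (by
      have : Integrable (fun x => (- W1 x * F x) * Real.exp (- W x)) μ :=
        integrable_mul_exp cW (cW1.neg.mul cF) hs.mul_left
      refine this.congr (Filter.Eventually.of_forall fun x => ?_)
      simp only [ContinuousLinearMap.mul_apply']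
      ring)
    (by simpa using integrable_mul_exp (μ := μ) cW cF hs)
    (fun x _ => hF x) (fun x _ => hW.exp_neg x)
  have i1 : Integrable (fun x => F' x * Real.exp (- W x)) μ := integrable_mul_exp cW cF' hs'
  have i2 : Integrable (fun x => (W1 x * F x) * Real.exp (- W x)) μ :=
    integrable_mul_exp cW (cW1.mul cF) hs.mul_left
  have e : ∀ x, (F' x - W1 x * F x) * Real.exp (- W x)
      = F' x * Real.exp (- W x) - (W1 x * F x) * Real.exp (- W x) := fun x => by ring
  simp only [e]
  rw [integral_sub i1 i2]
  simp only [ContinuousLinearMap.mul_apply'] at h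
  have h3 : ∫ x, F x * (- W1 x * Real.exp (- W x)) ∂μ
      = - ∫ x, (W1 x * F x) * Real.exp (- W x) ∂μ := by
    rw [← integral_neg]
    congr 1
    funext x; ring
  linarith

/-- weighted integration by parts, product form:
`E F' u = E F (W1 u - u')`. -/
theorem ibp_mul {F F' u u' : E → ℝ} (hW : PD v W W1) (cW : Continuous W) (cW1 : Continuous W1)
    (hF : PD v F F') (cF : Continuous F) (cF' : Continuous F')
    (hu : PD v u u') (cu : Continuous u) (cu' : Continuous u')
    (hs : HasCompactSupport F ∨ HasCompactSupport u) :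
    ∫ x, (F' x * u x) * Real.exp (- W x) ∂μ
      = ∫ x, (F x * (W1 x * u x - u' x)) * Real.exp (- W x) ∂μ := by
  have hs1 : HasCompactSupport (fun x => F x * u x) := by
    rcases hs with hs | hs
    · exact hs.mul_right
    · exact hs.mul_left
  have hs2 : HasCompactSupport (fun x => F' x * u x) := by
    rcases hs with hs | hs
    · exact (hF.hasCompactSupport hs).mul_right
    · exact hs.mul_left
  have hs3 : HasCompactSupport (fun x => F x * (W1 x * u x - u' x)) := by
    rcases hs with hs | hs
    · exact hs.mul_right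
    · apply HasCompactSupport.mul_left
      have h1 : HasCompactSupport (fun x => W1 x * u x) := hs.mul_left
      exact h1.sub (hu.hasCompactSupport hs)
  have h := ibp_div (μ := μ) hW cW cW1 (hF.mul hu) (cF.mul cu)
    ((cF'.mul cu).add (cF.mul cu')) hs1
  have e : ∀ x, (F' x * u x + F x * u' x - W1 x * (F x * u x)) * Real.exp (- W x)
      = (F' x * u x) * Real.exp (- W x)
        - (F x * (W1 x * u x - u' x)) * Real.exp (- W x) := fun x => by ring
  simp only [e] at h
  have i1 : Integrable (fun x => (F' x * u x) * Real.exp (- W x)) μ :=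
    integrable_mul_exp cW (cF'.mul cu) hs2
  have i2 : Integrable (fun x => (F x * (W1 x * u x - u' x)) * Real.exp (- W x)) μ :=
    integrable_mul_exp cW (cF.mul ((cW1.mul cu).sub cu')) hs3
  rw [integral_sub i1 i2] at h
  linarith

end IBP

end Pool.Agent.Helper2.MM
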