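import Pool.Agent.Helper44.CM.Interface
import Pool.Agent.Helper92.MM.K4
import Pool.Agent.Helper92.MM.K6V
import Pool.Agent.Helper2.MM.K6H

/-! Block B6, final form: `CM.ST_K`. -/

open MeasureTheory

namespace Pool.Agent.Helper2.MM

open CM CM.H63 MM92

variable {n : ℕ}

section jets

variable {h : E n → ℝ} (c5 : ContDiff ℝ 5 h)

include c5 in
theorem hd1 (i : Fin n) : ContDiff ℝ (4 : ℕ) (pd i h) :=
  contDiff_pd (k := 4) (by exact_mod_cast c5) i

include c5 in
theorem hd2 (i j : Fin n) : ContDiff ℝ (3 : ℕ) (pd i (pd j h)) :=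
  contDiff_pd (k := 3) (by exact_mod_cast hd1 c5 j) i

include c5 in
theorem hd3 (i j k : Fin n) : ContDiff ℝ (2 : ℕ) (pd i (pd j (pd k h))) :=
  contDiff_pd (k := 2) (by exact_mod_cast hd2 c5 j k) i

include c5 in
theorem hd4 (i j k l : Fin n) : ContDiff ℝ (1 : ℕ) (pd i (pd j (pd k (pd l h)))) :=
  contDiff_pd (k := 1) (by exact_mod_cast hd3 c5 j k l) i

theorem AK_eq (τ : E n → Mt n) (κ : ℝ) (u : E n → ℝ) (x : E n) :
    AK τ κ u x = ∑ a, x a * pd a u x - ∑ a, ∑ b, τ x a b * hess u x a b - κ * u x := by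
  unfold AK LL tr2
  rw [eul_eq_sum]
  ring

variable {V : E n → ℝ} (h5 : ContDiff ℝ 5 V) {a : ℝ} (ha : 0 < a) (hV : ∀ x, LB a (hess V x))

theorem coordCD (i : Fin n) (m : WithTop ℕ∞) : ContDiff ℝ m (fun x : E n => x i) :=
  (EuclideanSpace.proj (𝕜 := ℝ) i : E n →L[ℝ] ℝ).contDiff

include h5 ha hV c5 in
theorem cd_f : ContDiff ℝ (3 : ℕ) (AK (tau V) 1 h) := by
  have e : AK (tau V) 1 h = fun x => ∑ a, x a * pd a h x
      - ∑ a, ∑ b, tau V x a b * hess h x a b - 1 * h x := funext fun x => AK_eq _ _ _ x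
  rw [e]
  refine (ContDiff.sub ?_ ?_).sub ?_
  · exact ContDiff.sum fun i _ => (coordCD i _).mul ((hd1 c5 i).of_le (by norm_cast))
  · exact ContDiff.sum fun i _ => ContDiff.sum fun j _ => (cdτ h5 ha hV i j).mul (hd2 c5 i j)
  · exact contDiff_const.mul (c5.of_le (by norm_num))

include h5 ha hV c5 in
theorem cd_f1 (i : Fin n) : ContDiff ℝ (2 : ℕ) (pd i (AK (tau V) 1 h)) :=
  contDiff_pd (k := 2) (by exact_mod_cast cd_f c5 h5 ha hV) i

include h5 ha hV c5 in
theorem cd_f2 (i j : Fin n) : ContDiff ℝ (1 : ℕ) (pd j (pd i (AK (tau V) 1 h))) :=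
  contDiff_pd (k := 1) (by exact_mod_cast cd_f1 c5 h5 ha hV i) j

include h5 ha hV c5 in
theorem cd_v (i : Fin n) : ContDiff ℝ (2 : ℕ) (vf V h i) := by
  unfold vf
  exact ContDiff.sum fun j _ => ((cdτ h5 ha hV i j).of_le (by norm_cast)).mul
    (cd_f1 c5 h5 ha hV j)

include h5 ha hV c5 in
theorem cd_v1 (i j : Fin n) : ContDiff ℝ (1 : ℕ) (pd j (vf V h i)) :=
  contDiff_pd (k := 1) (by exact_mod_cast cd_v c5 h5 ha hV i) j

include h5 ha hV c5 in
theorem cd_v2 (i j k : Fin n) : Continuous (pd k (pd j (vf V h i))) := by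
  have := contDiff_pd (k := 0) (f := pd j (vf V h i))
    (by exact_mod_cast cd_v1 c5 h5 ha hV i j) k
  exact this.continuous

theorem PDM_of {f : Fin n → Fin n → E n → ℝ} (hf : ∀ a b, Differentiable ℝ (f a b)) (i : Fin n) :
    PDM (EuclideanSpace.single i (1 : ℝ)) (fun x => Matrix.of fun a b => f a b x)
      (fun x => Matrix.of fun a b => pd i (f a b) x) := fun a b => PD_pd (hf a b) i

theorem HasCompactSupport.pd {f : E n → ℝ} (hs : HasCompactSupport f) (i : Fin n) :
    HasCompactSupport (CM.pd i f) := by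
  have h1 : HasCompactSupport (fderiv ℝ f) := hs.fderiv (𝕜 := ℝ)
  unfold CM.pd
  exact h1.comp_left (g := fun L : E n →L[ℝ] ℝ => L (EuclideanSpace.single i (1 : ℝ))) rfl

/-- the raw data of `h` -/
noncomputable def hraw (hs : HasCompactSupport h) : HRaw (vjet h5 ha hV) where
  h := h
  h1 i := CM.pd i h
  B := hess h
  S i x := Matrix.of fun a b => CM.pd i (CM.pd a (CM.pd b h)) x
  R i j x := Matrix.of fun a b => CM.pd j (CM.pd i (CM.pd a (CM.pd b h))) x
  f := AK (tau V) 1 h
  f1 i := CM.pd i (AK (tau V) 1 h)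
  f2 i j := CM.pd j (CM.pd i (AK (tau V) 1 h))
  v := vf V h
  v1 i j := CM.pd j (vf V h i)
  v2 i j k := CM.pd k (CM.pd j (vf V h i))
  dh i := PD_pd (c5.differentiable (by norm_num)) i
  dh1 a i := by
    refine (PD_pd ((hd1 c5 a).differentiable (by norm_num)) i).congr' fun x => ?_
    exact hess_symm (c2V c5) x a i
  dB i a b := PD_pd ((hd2 c5 a b).differentiable (by norm_num)) i
  dS i j a b := PD_pd ((hd3 c5 i a b).differentiable (by norm_num)) j
  f_eq x := by
    have := AK_eq (tau V) 1 h x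
    rw [one_mul] at this
    exact this
  df i := PD_pd ((cd_f c5 h5 ha hV).differentiable (by norm_num)) i
  df1 i j := PD_pd ((cd_f1 c5 h5 ha hV i).differentiable (by norm_num)) j
  f2sym i j x := pd_comm ((cd_f c5 h5 ha hV).of_le (by norm_cast)) j i x
  v_def i x := rfl
  dv i j := PD_pd ((cd_v c5 h5 ha hV i).differentiable (by norm_num)) j
  dv1 i j k := PD_pd ((cd_v1 c5 h5 ha hV i j).differentiable (by norm_num)) k
  v2sym i j k x := pd_comm (by exact_mod_cast cd_v c5 h5 ha hV i) k j x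
  cB a b := (hd2 c5 a b).continuous
  cS i a b := (hd3 c5 i a b).continuous
  cR i j a b := (hd4 c5 j i a b).continuous
  cv2 i j k := cd_v2 c5 h5 ha hV i j k
  cv1 i j := (cd_v1 c5 h5 ha hV i j).continuous
  cv i := (cd_v c5 h5 ha hV i).continuous
  sB a b := HasCompactSupport.pd (HasCompactSupport.pd hs b) a
  Bsym x a b := hess_symm (c2V c5) x a b
  Ssym i x a b := by
    have e : CM.pd a (CM.pd b h) = CM.pd b (CM.pd a h) := funext fun y => pd_comm (c2V c5) a b y
    simp only [Matrix.of_apply, e]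
  Ssym' i x a b := by
    simp only [Matrix.of_apply]
    exact pd_comm ((hd1 c5 b).of_le (by norm_cast)) i a x
  Rsym i j x a b := by
    have e : CM.pd a (CM.pd b h) = CM.pd b (CM.pd a h) := funext fun y => pd_comm (c2V c5) a b y
    simp only [Matrix.of_apply, e]
  Rsym' i j x a b := by
    simp only [Matrix.of_apply]
    exact pd_comm ((hd2 c5 a b).of_le (by norm_cast)) j i x
  Rsym'' i j x a b := by
    simp only [Matrix.of_apply]
    have e1 : CM.pd i (CM.pd a (CM.pd b h)) = CM.pd a (CM.pd i (CM.pd b h)) :=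
      funext fun y => pd_comm ((hd1 c5 b).of_le (by norm_cast)) i a y
    have e2 : CM.pd j (CM.pd i (CM.pd b h)) = CM.pd i (CM.pd j (CM.pd b h)) :=
      funext fun y => pd_comm ((hd1 c5 b).of_le (by norm_cast)) j i y
    rw [e1, pd_comm ((hd2 c5 i b).of_le (by norm_cast)) j a x, e2]

theorem Mf_eq (hs : HasCompactSupport h) (x : E n) :
    tr2 (hess (WW V) x) (Mf V h x)
      = (∑ i, ∑ j, (vjet h5 ha hV).W2 x i j * (hraw c5 h5 ha hV hs).toH.v i x
          * (hraw c5 h5 ha hV hs).toH.v j x) + (hraw c5 h5 ha hV hs).toH.ww x := by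
  set H := (hraw c5 h5 ha hV hs).toH with hH
  have e1 : Nf V h x * hess V x * Nf V h x = H.C x := by
    have e0 : H.C x = tau V x * hess h x * tau V x * hess h x * tau V x := rfl
    have tg : tau V x * hess V x = 1 := (vjet h5 ha hV).tg x
    rw [e0]
    unfold Nf
    have e2 : tau V x * hess h x * tau V x * hess V x * (tau V x * hess h x * tau V x)
        = tau V x * hess h x * (tau V x * hess V x) * (tau V x * hess h x * tau V x) := by
      simp only [Matrix.mul_assoc]
    rw [e2, tg, Matrix.mul_one]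
    simp only [Matrix.mul_assoc]
  have e3 : H.ww x = ∑ i, ∑ j, hess (WW V) x i j * H.C x i j := by
    have e0 : H.ww x = ((vjet h5 ha hV).W2 x * H.C x).trace := rfl
    rw [e0, vjet_W2]
    simp only [Matrix.trace, Matrix.diag_apply]
    refine Finset.sum_congr rfl fun i _ => ?_
    rw [Matrix.mul_apply]
    refine Finset.sum_congr rfl fun j _ => ?_
    have h1 := congrFun (congrFun (H.CT x) j) i
    rw [Matrix.transpose_apply] at h1
    rw [h1]
  have e4 : ∀ i, H.v i x = vf V h i x := fun i => rfl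
  rw [e3, vjet_W2]
  simp only [e4]
  unfold tr2 Mf
  rw [e1, ← Finset.sum_add_distrib]
  refine Finset.sum_congr rfl fun i _ => ?_
  rw [← Finset.sum_add_distrib]
  refine Finset.sum_congr rfl fun j _ => ?_
  rw [Matrix.add_apply, Matrix.of_apply]
  ring

theorem gf_eq (hs : HasCompactSupport h) (x : E n) :
    gf V h x = (hraw c5 h5 ha hV hs).toH.g x := by
  rw [HRaw.g_eq]
  unfold gf
  rw [AK_eq, zero_mul, sub_zero]
  rfl

end jets

/-- Block B6: the inequality (K). -/
theorem st_K : CM.ST_K := by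
  intro n F V h _ hSol c5 hs
  obtain ⟨M, hM⟩ := hSol.reg
  obtain ⟨a, ha, hV⟩ := hSol.pos
  have h5 : ContDiff ℝ 5 V := by exact_mod_cast hM.1
  set D := vjet h5 ha hV with hD
  set H := (hraw c5 h5 ha hV hs).toH with hH
  have key := H.K_of volume (H.K3 volume) (MM92.K4 H volume)
  have c1 : Continuous (fun x => ∑ i, ∑ j, D.W2 x i j * H.v i x * H.v j x) :=
    continuous_finsetSum _ (fun i _ => continuous_finsetSum _ (fun j _ =>
      ((D.cW2 i j).mul (H.cv i)).mul (H.cv j)))
  have s1 : HasCompactSupport (fun x => ∑ i, ∑ j, D.W2 x i j * H.v i x * H.v j x) :=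
    HasCompactSupport.fsum _ (fun i _ => HasCompactSupport.fsum _ (fun j _ =>
      HasCompactSupport.mul_left (f := fun x => D.W2 x i j * H.v i x) (H.sv j)))
  rw [← D.Ex_add c1 s1 H.cww H.sww] at key
  have e1 : ∫ x : E n, tr2 (hess (WW V) x) (Mf V h x) * Real.exp (- WW V x)
      = D.Ex volume (fun x => (∑ i, ∑ j, D.W2 x i j * H.v i x * H.v j x) + H.ww x) := by
    unfold VJet.Ex
    exact integral_congr_ae (Filter.Eventually.of_forall fun x => by
      simp only [Mf_eq c5 h5 ha hV hs x]; rfl)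
  have e2 : ∫ x : E n, (gf V h x) ^ 2 * Real.exp (- WW V x)
      = D.Ex volume (fun x => H.g x ^ 2) := by
    unfold VJet.Ex
    exact integral_congr_ae (Filter.Eventually.of_forall fun x => by
      simp only [gf_eq c5 h5 ha hV hs x]; rfl)
  rw [e1, e2]
  exact key

end Pool.Agent.Helper2.MM
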